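import Pool.Agent.TH117.BL.Defs

/-!
# Abelian varieties over finite fields with elementary relations between the Frobenius eigenvalues:
definitions
-/

set_option autoImplicit false

namespace Pool.Agent.Y137.SF

open NumberField Pool.Agent.H204R3.CM Pool.Agent.W547.KB Pool.Agent.W495.TA Pool.Agent.W495.TC Module
  Pool.Agent.TH117.BL

variable {p : ℕ} [Fact p.Prime] {ν : PadicAlgCl p ≃+* ℂ}

/-- The factors of `Z` with the indices `i` and `k` form an exceptional pair: the first one is an elliptic
curve, the second one has dimension four, and there are an eigenvalue `ψ (π i)` of the Frobenius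
endomorphism of the first factor and two eigenvalues `φ (π k)` and `φ' (π k)` of the Frobenius
endomorphism of the second one, belonging to embeddings `φ`, `φ'` that are neither equal nor complex
conjugate, such that `φ (π k) * φ' (π k)` is the product of `ψ (π i)` and of a square root of the number
`p ^ a` of elements of the ground field, up to a root of unity. -/
def IsExcPair (Z : RedAV p ν) (i k : Z.X.I) : Prop :=
  finrank ℚ (Z.X.factor i).E = 2 ∧ finrank ℚ (Z.X.factor k).E = 8 ∧
    ∃ (ψ : (Z.X.factor i).E →+* ℂ) (φ φ' : (Z.X.factor k).E →+* ℂ) (s : ℕ),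
      φ' ≠ φ ∧ φ' ≠ ComplexEmbedding.conjugate φ ∧ 0 < s ∧
        (eig Z ⟨k, φ⟩ * eig Z ⟨k, φ'⟩) ^ (2 * s) = (eig Z ⟨i, ψ⟩ ^ 2 * (p : ℂ) ^ Z.a) ^ s

open Classical in
/-- A set `S` of (indices of) factors is good in one of the following cases:

* the factors in `S` have dimension at most three, and any two factors of dimension three in `S` whose
  CM fields have the same Galois closure over `ℚ` (in the field of complex numbers) are isogenous,
  unless these CM fields are Galois over `ℚ` or one of the two factors is supersingular;
* the sum of the dimensions of the factors in `S` is at most five (so the sum of the degrees of their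
  CM fields is at most ten), and no two of them form an exceptional pair. -/
def IsGoodSetS (Z : RedAV p ν) (S : Set Z.X.I) : Prop :=
  ((∀ i ∈ S, finrank ℚ (Z.X.factor i).E ≤ 6) ∧
    ∀ i ∈ S, ∀ k ∈ S, finrank ℚ (Z.X.factor i).E = 6 → finrank ℚ (Z.X.factor k).E = 6 →
      IntermediateField.normalClosure ℚ (Z.X.factor i).E ℂ =
        IntermediateField.normalClosure ℚ (Z.X.factor k).E ℂ →
        IsGalois ℚ (Z.X.factor i).E ∨ IsSupersingular Z i ∨ IsSupersingular Z k ∨ IsIsogenous Z i k) ∨
  ((∑ i, if i ∈ S then finrank ℚ (Z.X.factor i).E else 0) ≤ 10 ∧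
    ∀ i ∈ S, ∀ k ∈ S, ¬ IsExcPair Z i k)

/-- A relation with the exponents `e w` is elementary if it involves at most two eigenvalues (with
multiplicities), or only eigenvalues that belong to the factors in a good set, or if it is a Weil
relation. -/
def IsElementaryS (Z : RedAV p ν) (e : Emb Z → ℕ) : Prop :=
  ∑ w, e w ≤ 2 ∨ (∃ S : Set Z.X.I, IsGoodSetS Z S ∧ ∀ w, e w ≠ 0 → w.1 ∈ S) ∨ IsWeilRelation Z e

/-- The multiplicative relations between the Frobenius eigenvalues are products of elementary relations
and of inverses of such relations. -/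
def HasElementaryRelationsS (Z : RedAV p ν) : Prop :=
  ∀ e : Emb Z → ℕ, IsRel Z e → (fun w => (e w : ℤ)) ∈ AddSubgroup.closure
    {d : Emb Z → ℤ | ∃ n : Emb Z → ℕ, IsRel Z n ∧ IsElementaryS Z n ∧ ∀ w, d w = n w}

end Pool.Agent.Y137.SF
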