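import Pool.Agent.Y137.SF.Three
import Pool.Agent.Y137.SF.Defs2

/-!
# The theorems
-/

set_option autoImplicit false
set_option linter.unusedSectionVars false
set_option linter.unusedVariables false

namespace Pool.Agent.Y137.SF

open NumberField Pool.Agent.H204R3.CM Pool.Agent.W547.KB Pool.Agent.W547.LD Pool.Agent.W495.TA Module
  Pool.Agent.W495.TB Pool.Agent.W495.TC Pool.Agent.TH117.F5 Pool.Agent.TH117.BL
open scoped TensorProduct

noncomputable section

variable {p : ℕ} [Fact p.Prime] {ν : PadicAlgCl p ≃+* ℂ}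

section

variable {Ω : Type} [Field Ω] [CharZero Ω]
  {L : Type} [Field L] [NumberField L] [IsCMField L] [IsGalois ℚ L] {j : L →+* ℂ} (jO : L →+* Ω)
  {Z : RedAV p ν} {W : Set ℕ}

/-- Exponents as families of labels. -/
theorem genD_labels {G Λ : Type} [Fintype Λ] {Q : (κ : Type) → (κ → G → ℤ) → Prop}
    {R : Set (G → ℤ)} (T : Λ → G → ℤ) (P : Λ → Prop)
    (h : ∀ (κ : Type) [Fintype κ] (w : κ → Option Λ), (∀ k l, w k = some l → P l) →
      (∀ g, ∑ k, ext0 T (w k) g = 0) → GenD Q R (dcnt fun k => ext0 T (w k)))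
    (e : Λ → ℕ) (he : ∀ l, e l ≠ 0 → P l) (hsum : ∀ g, ∑ l, (e l : ℤ) * T l g = 0) :
    GenD Q R (DD T fun l => (e l : ℤ)) := by
  classical
  have h1 := h (FF e) (Pool.Agent.TH117.BL.fl e) (by
    rintro (⟨l', i⟩ | k) l h
    · have h2 : l' = l := Option.some_injective _ h
      subst h2
      refine he l' fun h3 => ?_
      rw [h3] at i
      exact i.elim0
    · exact absurd h (by simp [Pool.Agent.TH117.BL.fl])) (fun g => by
    rw [sum_eq_cnt, cnt_fl]
    exact hsum g)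
  rw [dcnt_eq_DD, cnt_fl] at h1
  exact h1

/-- The families belonging to a set of factors of dimension at most three. -/
theorem genD_set_three (h4 : 4 ∈ W) (h6 : 6 ∈ W) (hZ : Big Z.X j) (hkp : BigA (kp p) j)
    [Fintype (Wt Z.X L)] (S : Set Z.X.I) (hdeg : ∀ i ∈ S, finrank ℚ (Z.X.factor i).E ≤ 6)
    (hclos : ∀ i ∈ S, ∀ k ∈ S, finrank ℚ (Z.X.factor i).E = 6 → finrank ℚ (Z.X.factor k).E = 6 →
      ¬ IsBad p ν j (Z.X.factor i) (Z.X.factor k))
    (e : Wt Z.X L → ℕ) (he : ∀ l, e l ≠ 0 → l.1 ∈ S)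
    (hsum : ∀ g, ∑ l, (e l : ℤ) * tw p ν j Z.X l g = 0) :
    GenD (AlgMS W p ν j jO) (RR p ν j) (DD (tw p ν j Z.X) fun l => (e l : ℤ)) := by
  classical
  refine genD_labels (tw p ν j Z.X) (fun l => l.1 ∈ S) (fun κ _ w hw hs => ?_) e he hsum
  let X' : CMAV := { I := {i : Z.X.I // i ∈ S}, factor := fun i => Z.X.factor i.1 }
  have hX' : Big X' j := fun i ψ => hZ i.1 ψ
  have hex : ∀ k, ∃ o : Option (Wt X' L), ext0 (tw p ν j Z.X) (w k) = ext0 (tw p ν j X') o := by
    intro k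
    rcases hk : w k with _ | l
    · exact ⟨none, rfl⟩
    · exact ⟨some ⟨⟨l.1, hw k l hk⟩, l.2⟩, rfl⟩
  choose f hf using hex
  have h1 := genD_three h4 h6 j jO hkp X' hX' (fun i => hdeg i.1 i.2)
    (fun i k hi hk => hclos i.1 i.2 k.1 k.2 hi hk) f (fun g => by
      rw [← hs g]
      exact Finset.sum_congr rfl fun k _ => by rw [hf k])
  have h3 : (fun k => ext0 (tw p ν j Z.X) (w k)) = fun k => ext0 (tw p ν j X') (f k) := funext hf
  rw [h3]
  exact h1

/-- The families belonging to a good set. -/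
theorem genD_good (h4 : 4 ∈ W) (h6 : 6 ∈ W) (hZ : Big Z.X j) (hkp : BigA (kp p) j)
    [Fintype (Wt Z.X L)] (S : Set Z.X.I) (hgood : IsGoodSetS Z S)
    (e : Wt Z.X L → ℕ) (he : ∀ l, e l ≠ 0 → l.1 ∈ S)
    (hsum : ∀ g, ∑ l, (e l : ℤ) * tw p ν j Z.X l g = 0) :
    GenD (AlgMS W p ν j jO) (RR p ν j) (DD (tw p ν j Z.X) fun l => (e l : ℤ)) := by
  classical
  rcases hgood with ⟨h1, h2⟩ | ⟨h1, h2⟩
  · exact genD_set_three jO h4 h6 hZ hkp S h1 (fun i hi k hk hi6 hk6 =>
      not_bad hZ (h1 i hi) (h1 k hk) (h2 i hi k hk hi6 hk6)) e he hsum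
  · by_cases hex : ∃ i ∈ S, ∃ k ∈ S, i ≠ k ∧ finrank ℚ (Z.X.factor i).E = 4 ∧
        finrank ℚ (Z.X.factor k).E = 4
    · -- all factors have dimension at most two
      obtain ⟨i, hi, k, hk, hik, hi4, hk4⟩ := hex
      have hle : ∀ l ∈ S, finrank ℚ (Z.X.factor l).E ≤ 4 := by
        intro l hl
        by_cases hli : l = i
        · rw [hli, hi4]
        by_cases hlk : l = k
        · rw [hlk, hk4]
        have e1 := Finset.add_sum_erase Finset.univ
          (fun i => if i ∈ S then finrank ℚ (Z.X.factor i).E else 0) (Finset.mem_univ i)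
        have e2 := Finset.add_sum_erase (Finset.univ.erase i)
          (fun i => if i ∈ S then finrank ℚ (Z.X.factor i).E else 0)
          (Finset.mem_erase.2 ⟨hik.symm, Finset.mem_univ k⟩)
        have e3 := Finset.add_sum_erase ((Finset.univ.erase i).erase k)
          (fun i => if i ∈ S then finrank ℚ (Z.X.factor i).E else 0)
          (Finset.mem_erase.2 ⟨hlk, Finset.mem_erase.2 ⟨hli, Finset.mem_univ l⟩⟩)
        simp only [if_pos hi, if_pos hk, if_pos hl] at e1 e2 e3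
        omega
      refine genD_set_three jO h4 h6 hZ hkp S (fun l hl => (hle l hl).trans (by norm_num))
        (fun l hl m hm hl6 _ => ?_) e he hsum
      have := hle l hl
      omega
    · have hgood' : IsGoodSet Z S := by
        refine Or.inl ⟨h1, fun i hi k hk hik hexc => ?_⟩
        obtain ⟨hf, hrel⟩ := hexc
        rcases hf with ⟨a1, a2, -⟩ | ⟨a1, a2⟩
        · exact hex ⟨i, hi, k, hk, hik, a1, a2⟩
        · exact h2 i hi k hk ⟨a1, a2, hrel⟩
      exact GenD.mono (Q' := AlgMS W p ν j jO) (fun κ t ht => AlgMS.of_algM h4 h6 ht)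
        (range_ext0_subset j hkp Z.X)
        (genD_of_good (cw Z) (tw p ν j Z.X) tw_cw (fam_set jO hZ hkp S hgood') e he hsum)

/-- All families. -/
theorem fam_allS (h4 : 4 ∈ W) (h6 : 6 ∈ W) (hZ : Big Z.X j) (hkp : BigA (kp p) j)
    (hrel : HasElementaryRelationsS Z) : Fam (AlgMS W p ν j jO) (tw p ν j Z.X) := by
  classical
  have hfin := finite_wt j hZ
  let _ : Fintype (Wt Z.X L) := Fintype.ofFinite _
  have hbij := toEmb_bijective (j := j) hZ
  let E : Wt Z.X L ≃ Emb Z := Equiv.ofBijective _ hbij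
  -- elementary relations
  have key : ∀ d : Emb Z → ℤ, d ∈ AddSubgroup.closure
      {d : Emb Z → ℤ | ∃ n : Emb Z → ℕ, IsRel Z n ∧ IsElementaryS Z n ∧ ∀ w, d w = n w} →
      GenD (AlgMS W p ν j jO) (RR p ν j)
        (DD (tw p ν j Z.X) fun l => d (toEmb j Z l)) := by
    intro d hd
    induction hd using AddSubgroup.closure_induction with
    | mem d hd =>
      obtain ⟨n, h0, h2, h3⟩ := hd
      have h1 := (isRel_iff hZ n).1 h0
      have h4' : (fun l => d (toEmb j Z l)) = fun l : Wt Z.X L => (n (toEmb j Z l) : ℤ) :=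
        funext fun l => h3 _
      rw [h4']
      rcases h2 with h2 | ⟨S, hS, h2⟩ | h2
      · rw [DD_small (tw p ν j Z.X) (fun l => n (toEmb j Z l)) (by
          rw [← Equiv.sum_comp E] at h2
          exact h2) h1]
        exact GenD.zero
      · exact genD_good jO h4 h6 hZ hkp S hS (fun l => n (toEmb j Z l)) (fun l hl => h2 _ hl) h1
      · exact GenD.mono (Q' := AlgMS W p ν j jO) (fun κ t ht => AlgMS.of_algM h4 h6 ht)
          (range_ext0_subset j hkp Z.X) (genD_weil jO hZ hkp n h0 h2)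
    | zero =>
      have h4' : (fun l : Wt Z.X L => (0 : Emb Z → ℤ) (toEmb j Z l)) = 0 := rfl
      rw [h4', DD_zero]
      exact GenD.zero
    | add d d' _ _ h h' =>
      have h4' : (fun l : Wt Z.X L => (d + d') (toEmb j Z l)) =
        (fun l => d (toEmb j Z l)) + fun l => d' (toEmb j Z l) := rfl
      rw [h4', DD_add]
      exact h.add h'
    | neg d _ h =>
      have h4' : (fun l : Wt Z.X L => (-d) (toEmb j Z l)) = -fun l => d (toEmb j Z l) := rfl
      rw [h4', DD_neg]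
      exact h.neg
  intro κ _ w hsum heven
  let e : Emb Z → ℕ := fun u => Nat.card {k // w k = some (E.symm u)}
  have he : ∀ v : Wt Z.X L, (e (toEmb j Z v) : ℤ) = cnt w v := by
    intro v
    have h1 : E.symm (toEmb j Z v) = v := E.symm_apply_apply v
    change ((Nat.card {k // w k = some (E.symm (toEmb j Z v))} : ℕ) : ℤ) = _
    rw [h1]
    rfl
  have h1 : IsRel Z e := by
    rw [isRel_iff hZ]
    intro σ
    rw [← hsum σ, sum_eq_cnt]
    exact Finset.sum_congr rfl fun v _ => by rw [he]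
  have h2 := key _ (hrel e h1)
  have h3 : (fun l : Wt Z.X L => ((e (toEmb j Z l) : ℕ) : ℤ)) = cnt w := funext he
  have h5 : GenD (AlgMS W p ν j jO) (RR p ν j)
      (dcnt fun k => ext0 (tw p ν j Z.X) (w k)) := by
    rw [dcnt_eq_DD, ← h3]
    exact h2
  refine @of_genD _ _ (RR p ν j) (closedS W j jO) ?_ κ _
    (fun k => ext0 (tw p ν j Z.X) (w k)) (fun k => range_ext0_subset j hkp Z.X ⟨w k, rfl⟩)
    (by rw [Nat.card_eq_fintype_card]; exact heven) h5
  rintro f ⟨S, hS, rfl⟩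
  exact cancelS W j jO S hS

/-- All families of factors of dimension at most two. -/
theorem fam_two (W : Set ℕ) (hZ : Big Z.X j) (hkp : BigA (kp p) j)
    (hdeg : ∀ i, finrank ℚ (Z.X.factor i).E ≤ 4) : Fam (AlgMS W p ν j jO) (tw p ν j Z.X) := by
  classical
  intro κ _ w hsum heven
  refine @of_genD _ _ (RR p ν j) (closedS W j jO) ?_ κ _
    (fun k => ext0 (tw p ν j Z.X) (w k)) (fun k => range_ext0_subset j hkp Z.X ⟨w k, rfl⟩)
    (by rw [Nat.card_eq_fintype_card]; exact heven) (genD_two W j jO hkp Z.X hZ hdeg w hsum)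
  rintro f ⟨S, hS, rfl⟩
  exact cancelS W j jO S hS

end

/-- From families to Tate classes. -/
theorem alg_of_fam (W : Set ℕ) (Z : RedAV p ν) (Ω : Type) [Field Ω] [IsAlgClosed Ω] [CharZero Ω]
    (hfam : ∀ (L : Type) [Field L] [NumberField L] [IsCMField L] [IsGalois ℚ L] (j : L →+* ℂ)
      (jO : L →+* Ω), Big Z.X j → BigA (kp p) j → Fam (AlgMS W p ν j jO) (tw p ν j Z.X))
    (Y : RedAV p ν) (hY : IsPowersTimesSupersingular Z Y) (s m : ℕ) (hs0 : 0 < s)
    (f : (TM Ω Y) [⋀^Fin (2 * m)]→ₗ[Ω] Ω) (hf : IsTateClass Ω Y s m f) :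
    AlgS Ω W Y (Fin (2 * m)) f := by
  classical
  have hne : Nonempty ((Y.X.prod Z.X).prod (single (kp p))).I := ⟨Sum.inr ()⟩
  obtain ⟨L, _, _, _, _, j, hj⟩ := exists_cm ((Y.X.prod Z.X).prod (single (kp p)))
  have hYj : Big Y.X j := fun i ψ => hj (Sum.inl (Sum.inl i)) ψ
  have hZj : Big Z.X j := fun i ψ => hj (Sum.inl (Sum.inr i)) ψ
  have hkp : BigA (kp p) j := fun ψ => hj (Sum.inr ()) ψ
  let jO : L →+* Ω := ((IsAlgClosed.lift : L →ₐ[ℚ] Ω) : L →+* Ω)
  obtain ⟨e, h1, h2⟩ := Pool.Agent.W67.TA.basis p ν Ω L j jO Y hYj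
  refine expandS jO Y e h1 h2 _ f fun I hI => ?_
  have hbal := balanced jO Pool.Agent.W366.TA.val hYj e h1 h2 s m hs0 f hf I hI
  choose o ho using fun w => weight_cases hYj hZj hY w
  have key : AlgMS W p ν j jO (Fin (2 * m)) fun k => tf p ν j (St j (I k)) := by
    have h3 : (fun k => tf p ν j (St j (I k))) = fun k => ext0 (tw p ν j Z.X) (o (I k)) :=
      funext fun k => ho (I k)
    rw [h3]
    refine @hfam L _ _ _ _ j jO hZj hkp (Fin (2 * m)) _
      (fun k => o (I k)) (fun g => ?_) (by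
        rw [Fintype.card_fin]
        exact even_two_mul m)
    rw [← hbal g]
    exact Finset.sum_congr rfl fun k _ => by rw [ho (I k)]
  exact key Y hYj I fun k => rfl

/-- `Y` is isogenous to a product of powers of its factors. -/
theorem isPowers_self (Y : RedAV p ν) : IsPowersTimesSupersingular Y Y := fun i =>
  Or.inr ⟨i, RingHom.id _, 1, 1, one_pos, one_pos, rfl, rfl⟩

/-- Products of elliptic curves and abelian surfaces. -/
theorem surfacesS (W : Set ℕ) (Z : RedAV p ν) (hdeg : ∀ i, finrank ℚ (Z.X.factor i).E ≤ 4)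
    (Ω : Type) [Field Ω] [IsAlgClosed Ω] [CharZero Ω]
    (Y : RedAV p ν) (hY : IsPowersTimesSupersingular Z Y) (s m : ℕ) (hs0 : 0 < s)
    (f : (TM Ω Y) [⋀^Fin (2 * m)]→ₗ[Ω] Ω) (hf : IsTateClass Ω Y s m f) :
    AlgS Ω W Y (Fin (2 * m)) f :=
  alg_of_fam W Z Ω (fun L _ _ _ _ j jO hZ hkp => fam_two jO W hZ hkp hdeg) Y hY s m hs0 f hf

/-- Abelian varieties with elementary relations between the Frobenius eigenvalues. -/
theorem elementaryS (Z : RedAV p ν) (hrel : HasElementaryRelationsS Z)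
    (Ω : Type) [Field Ω] [IsAlgClosed Ω] [CharZero Ω]
    (Y : RedAV p ν) (hY : IsPowersTimesSupersingular Z Y) (s m : ℕ) (hs0 : 0 < s)
    (f : (TM Ω Y) [⋀^Fin (2 * m)]→ₗ[Ω] Ω) (hf : IsTateClass Ω Y s m f) :
    AlgS Ω {4, 6} Y (Fin (2 * m)) f :=
  alg_of_fam {4, 6} Z Ω (fun L _ _ _ _ j jO hZ hkp =>
    fam_allS jO (by simp) (by simp) hZ hkp hrel) Y hY s m hs0 f hf

/-- All abelian varieties of dimension at most five. -/
theorem fiveS (Ω : Type) [Field Ω] [IsAlgClosed Ω] [CharZero Ω] (Y : RedAV p ν)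
    (hY : finrank ℚ Y.X.H1 ≤ 10) (s m : ℕ) (hs0 : 0 < s)
    (f : (TM Ω Y) [⋀^Fin (2 * m)]→ₗ[Ω] Ω) (hf : IsTateClass Ω Y s m f) :
    AlgS Ω {4, 6} Y (Fin (2 * m)) f := by
  classical
  by_cases hex : IsExceptional Y
  · obtain ⟨i, k, l, hik, hil, hkl, hi, hk, hl, -⟩ := hex
    refine surfacesS {4, 6} Y (fun m => ?_) Ω Y (isPowers_self Y) s _ hs0 f hf
    rw [finrank_H1] at hY
    by_cases h1 : m = i
    · rw [h1, hi]
    by_cases h2 : m = k
    · rw [h2, hk]
    by_cases h3 : m = l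
    · rw [h3, hl]
      norm_num
    exfalso
    have e1 := Finset.add_sum_erase Finset.univ (fun i => finrank ℚ (Y.X.factor i).E)
      (Finset.mem_univ i)
    have e2 := Finset.add_sum_erase (Finset.univ.erase i) (fun i => finrank ℚ (Y.X.factor i).E)
      (Finset.mem_erase.2 ⟨Ne.symm hik, Finset.mem_univ k⟩)
    have e3 := Finset.add_sum_erase ((Finset.univ.erase i).erase k)
      (fun i => finrank ℚ (Y.X.factor i).E)
      (Finset.mem_erase.2 ⟨Ne.symm hkl, Finset.mem_erase.2 ⟨Ne.symm hil, Finset.mem_univ l⟩⟩)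
    have e4 := Finset.add_sum_erase (((Finset.univ.erase i).erase k).erase l)
      (fun i => finrank ℚ (Y.X.factor i).E)
      (Finset.mem_erase.2 ⟨h3, Finset.mem_erase.2 ⟨h2, Finset.mem_erase.2
        ⟨h1, Finset.mem_univ m⟩⟩⟩)
    have h5 := finrank_pos' (Y.X.factor m)
    omega
  · exact AlgS.of_alg (by simp) (by simp) (five Ω Y hY hex s m hs0 f hf)

end

end Pool.Agent.Y137.SF
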