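import Pool.Agent.W495.TA.Stms

/-!
# Cohomology classes on abelian varieties over finite fields generated by Tate classes of degree two,
Weil classes and reductions of Hodge classes on products of elliptic curves and abelian surfaces
-/

set_option autoImplicit false

namespace Pool.Agent.Y137.SF

open NumberField Pool.Agent.H204R3.CM Pool.Agent.W547.KB Pool.Agent.W547.LD Pool.Agent.W495.TA
open scoped TensorProduct

noncomputable section

variable {p : ℕ} [Fact p.Prime] {ν : PadicAlgCl p ≃+* ℂ}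

/-- The smallest system of cohomology classes, with coefficients in `Ω`, of abelian varieties over
finite fields (alternating forms `f` on the Tate module in variables indexed by the finite set `κ`)
which contains the classes of degree zero, the Tate classes of degree two over finite extensions, the
Weil classes of imaginary quadratic fields on abelian varieties of CM type of dimension four or six and
of split Weil type (only those of degree `n` with `n ∈ W`), and the reductions of the Hodge classes of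
degree four on products of elliptic curves and abelian surfaces with complex multiplication, and which
is stable under linear combinations, cup products, pull-backs along homomorphisms, and push-forwards
along projections. -/
inductive AlgS (Ω : Type) [Field Ω] [CharZero Ω] (W : Set ℕ) :
    (Y : RedAV p ν) → (κ : Type) → ((TM Ω Y) [⋀^κ]→ₗ[Ω] Ω) → Prop
  /-- classes of degree zero -/
  | unit {Y : RedAV p ν} {κ : Type} [IsEmpty κ] (f : (TM Ω Y) [⋀^κ]→ₗ[Ω] Ω) : AlgS Ω W Y κ f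
  /-- Tate classes of degree two over finite extensions (classes of divisors, by the theorem of
  Tate) -/
  | divisor {Y : RedAV p ν} {κ : Type} (hκ : Nat.card κ = 2) (f : (TM Ω Y) [⋀^κ]→ₗ[Ω] Ω) (s : ℕ)
      (hs : 0 < s) (hf : IsTateClass Ω Y s 1 f) : AlgS Ω W Y κ f
  /-- reductions of split Weil classes on abelian fourfolds and sixfolds of CM type (algebraic by
  theorems of Markman), only in the degrees `n ∈ W` -/
  | weil {Y : RedAV p ν} {n : ℕ} (hW : n ∈ W) (hn : n = 4 ∨ n = 6) (f : Y.X.H1 [⋀^Fin n]→ₗ[ℚ] ℚ)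
      (hf : IsSplitWeilClass Y.X n f) (g : (TM Ω Y) [⋀^Fin n]→ₗ[Ω] Ω)
      (hg : ∀ v : Fin n → Y.X.H1, g (fun k => 1 ⊗ₜ[ℚ] v k) = ((f v : ℚ) : Ω)) :
      AlgS Ω W Y (Fin n) g
  /-- reductions of Hodge classes of degree four on products of elliptic curves and abelian surfaces
  with complex multiplication (algebraic by the theorem of Ramón Marí) -/
  | surfaces {Y : RedAV p ν} (hY : ∀ i, Module.finrank ℚ (Y.X.factor i).E ≤ 4)
      (f : Y.X.H1 [⋀^Fin 4]→ₗ[ℚ] ℚ) (hf : IsHodge Y.X.per f) (g : (TM Ω Y) [⋀^Fin 4]→ₗ[Ω] Ω)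
      (hg : ∀ v : Fin 4 → Y.X.H1, g (fun k => 1 ⊗ₜ[ℚ] v k) = ((f v : ℚ) : Ω)) :
      AlgS Ω W Y (Fin 4) g
  | zero (Y : RedAV p ν) (κ : Type) : AlgS Ω W Y κ 0
  | add {Y : RedAV p ν} {κ : Type} (f g : (TM Ω Y) [⋀^κ]→ₗ[Ω] Ω) (hf : AlgS Ω W Y κ f)
      (hg : AlgS Ω W Y κ g) : AlgS Ω W Y κ (f + g)
  | smul {Y : RedAV p ν} {κ : Type} (c : Ω) (f : (TM Ω Y) [⋀^κ]→ₗ[Ω] Ω) (hf : AlgS Ω W Y κ f) :
      AlgS Ω W Y κ (c • f)
  /-- renaming of the variables -/
  | reindex {Y : RedAV p ν} {κ κ' : Type} (e : κ ≃ κ') (f : (TM Ω Y) [⋀^κ]→ₗ[Ω] Ω)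
      (hf : AlgS Ω W Y κ f) : AlgS Ω W Y κ' (f.domDomCongr e)
  /-- cup products (up to a factor) -/
  | cup {Y : RedAV p ν} {κ κ' : Type} [Fintype κ] [DecidableEq κ] [Fintype κ'] [DecidableEq κ']
      (f : (TM Ω Y) [⋀^κ]→ₗ[Ω] Ω) (g : (TM Ω Y) [⋀^κ']→ₗ[Ω] Ω) (hf : AlgS Ω W Y κ f)
      (hg : AlgS Ω W Y κ' g) (h : (TM Ω Y) [⋀^κ ⊕ κ']→ₗ[Ω] Ω)
      (hh : ∀ v : κ ⊕ κ' → TM Ω Y, h v = ∑ σ : Equiv.Perm (κ ⊕ κ'),
        ((Equiv.Perm.sign σ : ℤ) : Ω) *
          (f (fun k => v (σ (Sum.inl k))) * g (fun k => v (σ (Sum.inr k))))) :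
      AlgS Ω W Y (κ ⊕ κ') h
  /-- pull-back along a homomorphism -/
  | pull {Y Z : RedAV p ν} {κ : Type} (h : TM Ω Y →ₗ[Ω] TM Ω Z) (hh : IsFrobHom Ω Y Z h)
      (f : (TM Ω Z) [⋀^κ]→ₗ[Ω] Ω) (hf : AlgS Ω W Z κ f) : AlgS Ω W Y κ (f.compLinearMap h)
  /-- push-forward (integration over the fibres) along a projection `Z → Y`, where `Z` is isogenous
  to `Y × Y'` by the inclusions `h` and `h'`: insert a basis of the Tate module of `Y'` -/
  | push {Y Y' Z : RedAV p ν} {κ κ' : Type} (h : TM Ω Y →ₗ[Ω] TM Ω Z) (h' : TM Ω Y' →ₗ[Ω] TM Ω Z)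
      (hh : IsFrobHom Ω Y Z h) (hh' : IsFrobHom Ω Y' Z h')
      (hb : Function.Bijective (fun v : TM Ω Y × TM Ω Y' => h v.1 + h' v.2))
      (b : Module.Basis κ' Ω (TM Ω Y')) (f : (TM Ω Z) [⋀^κ ⊕ κ']→ₗ[Ω] Ω)
      (hf : AlgS Ω W Z (κ ⊕ κ') f) (g : (TM Ω Y) [⋀^κ]→ₗ[Ω] Ω)
      (hg : ∀ v : κ → TM Ω Y, g v = f (Sum.elim (fun k => h (v k)) (fun k => h' (b k)))) :
      AlgS Ω W Y κ g

/-- All monomials with the given functions on the Galois group, on all abelian varieties over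
finite fields, belong to the system `AlgS`. -/
def AlgMS (W : Set ℕ) (p : ℕ) [Fact p.Prime] (ν : PadicAlgCl p ≃+* ℂ) {Ω : Type} [Field Ω]
    [CharZero Ω] {L : Type} [Field L] [NumberField L] (j : L →+* ℂ) (jO : L →+* Ω) (κ : Type)
    (t : κ → (L ≃ₐ[ℚ] L) → ℤ) : Prop :=
  ∀ [Fintype κ] [DecidableEq κ] (Y : RedAV p ν), Big Y.X j → ∀ I : κ → Wt Y.X L,
    (∀ k, tf p ν j (St j (I k)) = t k) → AlgS Ω W Y κ (monoO jO I)

section

variable {Ω : Type} [Field Ω] [CharZero Ω] {W : Set ℕ}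

/-- The system generated by Tate classes of degree two and all split Weil classes is contained in the
larger one. -/
theorem AlgS.of_alg (h4 : 4 ∈ W) (h6 : 6 ∈ W) {Y : RedAV p ν} {κ : Type}
    {f : (TM Ω Y) [⋀^κ]→ₗ[Ω] Ω} (h : Alg Ω Y κ f) : AlgS Ω W Y κ f := by
  induction h with
  | unit f => exact AlgS.unit f
  | divisor hκ f s hs hf => exact AlgS.divisor hκ f s hs hf
  | weil hn f hf g hg =>
    refine AlgS.weil ?_ hn f hf g hg
    rcases hn with rfl | rfl
    · exact h4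
    · exact h6
  | zero Y κ => exact AlgS.zero Y κ
  | add f g _ _ hf hg => exact AlgS.add f g hf hg
  | smul c f _ hf => exact AlgS.smul c f hf
  | reindex e f _ hf => exact AlgS.reindex e f hf
  | cup f g _ _ h hh hf hg => exact AlgS.cup f g hf hg h hh
  | pull h hh f _ hf => exact AlgS.pull h hh f hf
  | push h h' hh hh' hb b f _ g hg hf => exact AlgS.push h h' hh hh' hb b f hf g hg

theorem AlgMS.of_algM (h4 : 4 ∈ W) (h6 : 6 ∈ W) {L : Type} [Field L] [NumberField L]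
    {j : L →+* ℂ} {jO : L →+* Ω} {κ : Type} {t : κ → (L ≃ₐ[ℚ] L) → ℤ}
    (h : AlgM p ν j jO κ t) : AlgMS W p ν j jO κ t := by
  intro _ _ Y hY I hI
  exact AlgS.of_alg h4 h6 (h Y hY I hI)

end

end

end Pool.Agent.Y137.SF
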