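import Pool.Agent.Y137.SF.Sep6

/-!
# Factors of dimension at most three
-/

set_option autoImplicit false
set_option linter.unusedSectionVars false
set_option linter.unusedVariables false

namespace Pool.Agent.Y137.SF

open NumberField Pool.Agent.H204R3.CM Pool.Agent.W547.KB Pool.Agent.W547.LD Pool.Agent.W495.TA Module
  Pool.Agent.W495.TB Pool.Agent.W495.TC Pool.Agent.TH117.F5 Pool.Agent.TH117.BL
open scoped TensorProduct

noncomputable section

variable {p : ℕ} [Fact p.Prime] {ν : PadicAlgCl p ≃+* ℂ} {Ω : Type} [Field Ω] [CharZero Ω]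
  {L : Type} [Field L] [NumberField L] [IsCMField L] [IsGalois ℚ L] {W : Set ℕ}

/-- Monotonicity. -/
theorem GenD.mono {G : Type} {Q Q' : (κ : Type) → (κ → G → ℤ) → Prop} {R R' : Set (G → ℤ)}
    (hQ : ∀ (κ : Type) (t : κ → G → ℤ), Q κ t → Q' κ t) (hR : R ⊆ R') {d : (G → ℤ) → ℤ}
    (h : GenD Q R d) : GenD Q' R' d := by
  obtain ⟨ι, hι, β, b, m, h1, h2⟩ := h
  exact ⟨ι, hι, β, b, m, fun i => ⟨(h1 i).fin, (h1 i).even, fun k => hR ((h1 i).mem k),
    hQ _ _ (h1 i).pos, hQ _ _ (h1 i).neg⟩, h2⟩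

/-- The stabilizer of the half system of an embedding. -/
theorem index_hs_le (j : L →+* ℂ) (A : CMPair) (hA : BigA A j) (φ : A.E →+* L) :
    (stab (hs A j φ)).index ≤ finrank ℚ A.E := by
  classical
  have := finite_emb j A
  have := Fintype.ofFinite (A.E →+* L)
  have h1 : MulAction.stabilizer (L ≃ₐ[ℚ] L) φ ≤ stab (hs A j φ) := by
    intro τ hτ
    rw [mem_stab, Pool.Agent.W417.TA.tr_hs', MulAction.mem_stabilizer_iff.1 hτ]
  have h2 := Nat.le_of_dvd (Nat.pos_of_ne_zero Subgroup.index_ne_zero_of_finite)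
    (Subgroup.index_dvd_of_le h1)
  refine h2.trans ?_
  rw [MulAction.index_stabilizer, ← card_emb hA, ← Nat.card_eq_fintype_card]
  exact (Set.ncard_le_card _)

theorem tf_mem_RR (j : L →+* ℂ) (A : CMPair) (φ : A.E →+* L) :
    tf p ν j (hs A j φ) ∈ RR p ν j := ⟨_, isHalf_hs A j φ, rfl⟩

/-- If the index of the stabilizer is at most three then the functions are equal up to sign. -/
theorem not_wide (j : L →+* ℂ) (A : CMPair) (φ : A.E →+* L)
    (h3 : (stab (hs A j φ)).index ≤ 3) : ¬ Wide (nn p ν j A) := by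
  classical
  set H := stab (hs A j φ) with hH
  have hcH : cc L ∉ H := cc_notMem_stab j (isHalf_hs A j φ)
  -- two cosets
  have hall : ∀ g : L ≃ₐ[ℚ] L, g ∈ H ∨ cc L * g ∈ H := by
    intro g
    by_contra hg
    push Not at hg
    obtain ⟨hg1, hg2⟩ := hg
    let v : Fin 4 → (L ≃ₐ[ℚ] L) ⧸ H := ![((1 : L ≃ₐ[ℚ] L) : (L ≃ₐ[ℚ] L) ⧸ H), (cc L : L ≃ₐ[ℚ] L),
      (g : L ≃ₐ[ℚ] L), ((cc L * g : L ≃ₐ[ℚ] L) : (L ≃ₐ[ℚ] L) ⧸ H)]
    have hci : (cc L)⁻¹ = cc L := inv_eq_of_mul_eq_one_left cc_cc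
    have key : ∀ i k : Fin 4, i < k → v i ≠ v k := by
      intro i k hik h
      fin_cases i <;> fin_cases k <;> first
        | exact absurd hik (by decide)
        | skip
      · have h1 : (1 : L ≃ₐ[ℚ] L)⁻¹ * cc L ∈ H := QuotientGroup.eq.1 h
        rw [inv_one, one_mul] at h1
        exact hcH h1
      · have h1 : (1 : L ≃ₐ[ℚ] L)⁻¹ * g ∈ H := QuotientGroup.eq.1 h
        rw [inv_one, one_mul] at h1
        exact hg1 h1
      · have h1 : (1 : L ≃ₐ[ℚ] L)⁻¹ * (cc L * g) ∈ H := QuotientGroup.eq.1 h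
        rw [inv_one, one_mul] at h1
        exact hg2 h1
      · have h1 : (cc L)⁻¹ * g ∈ H := QuotientGroup.eq.1 h
        rw [hci] at h1
        exact hg2 h1
      · have h1 : (cc L)⁻¹ * (cc L * g) ∈ H := QuotientGroup.eq.1 h
        rw [inv_mul_cancel_left] at h1
        exact hg1 h1
      · have h1 : g⁻¹ * (cc L * g) ∈ H := QuotientGroup.eq.1 h
        rw [cc_comm j, inv_mul_cancel_left] at h1
        exact hcH h1
    have hv : Function.Injective v := by
      intro i k h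
      rcases lt_trichotomy i k with h1 | h1 | h1
      · exact absurd h (key _ _ h1)
      · exact h1
      · exact absurd h.symm (key _ _ h1)
    have h5 := Nat.card_le_card_of_injective v hv
    rw [Nat.card_eq_fintype_card (α := Fin 4), Fintype.card_fin] at h5
    have h6 : Nat.card ((L ≃ₐ[ℚ] L) ⧸ H) ≤ 3 := h3
    omega
  have hset := setting j A (L := L)
  have hval : ∀ x : A.E →+* L, nn p ν j A x = nn p ν j A φ ∨ nn p ν j A x = -nn p ν j A φ := by
    intro x
    obtain ⟨g, rfl⟩ := hset.trans φ x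
    rcases hall g with h | h
    · left
      change nf _ _ _ = nf _ _ _
      rw [← tf_hs, ← tf_hs, ← Pool.Agent.W417.TA.tr_hs']
      rw [show tr g (hs A j φ) = hs A j φ from h]
    · right
      have h1 : tr (cc L * g) (hs A j φ) = hs A j φ := h
      have h2 : cc L • g • φ = (cc L * g) • φ := (mul_smul _ _ _).symm
      have h4 : nn p ν j A (cc L • g • φ) = nn p ν j A φ := by
        rw [h2]
        change nf _ _ _ = nf _ _ _
        rw [← tf_hs, ← tf_hs, ← Pool.Agent.W417.TA.tr_hs', h1]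
      rw [nn_cc'] at h4
      rw [← h4, neg_neg]
  rintro ⟨x, y, h1, h2⟩
  rcases hval x with hx | hx <;> rcases hval y with hy | hy
  · exact h1 (hx.trans hy.symm)
  · exact h2 (by rw [hx, hy, neg_neg])
  · exact h2 (by rw [hx, hy])
  · exact h1 (hx.trans hy.symm)

/-- Families with labels, of arbitrary parity. -/
theorem genD_of_fam {G Λ : Type} [Fintype Λ] {Q : (κ : Type) → (κ → G → ℤ) → Prop}
    (T : Λ → G → ℤ) (cj : Λ → Λ) (hodd : ∀ l, T (cj l) = -T l) (hFam : Fam Q T) {κ : Type}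
    [Fintype κ] (w : κ → Option Λ) (hsum : ∀ g, ∑ k, ext0 T (w k) g = 0) :
    GenD Q (Set.range (ext0 T)) (dcnt fun k => ext0 T (w k)) := by
  have h1 := genD_of_good cj T (Q := Q) hodd (P := fun _ => True)
    ⟨fun _ _ => trivial, fun κ _ w _ h1 h2 => hFam κ w h1 h2⟩
    (fun l => Nat.card {k // w k = some l}) (fun _ _ => trivial) (fun g => by
      rw [← hsum g, sum_eq_cnt]
      rfl)
  rw [dcnt_eq_DD]
  exact h1





end

end Pool.Agent.Y137.SF
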