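import Pool.Agent.TH117.BL.Gen

/-!
# Balanced families of sign functions on a finite group and the elementary exchanges
-/

set_option autoImplicit false
set_option linter.unusedSectionVars false
set_option linter.unusedVariables false

namespace Pool.Agent.Y137.SF

open Pool.Agent.W495.TA Pool.Agent.W495.TC Pool.Agent.TH117.BL

noncomputable section

/-! ### Counting functions -/

section delta

variable {G : Type}

open Classical in
/-- The counting function of one function. -/
def dl (f : G → ℤ) : (G → ℤ) → ℤ := fun x => (if f = x then 1 else 0) - (if f = -x then 1 else 0)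

theorem dl_neg (f : G → ℤ) : dl (-f) = -dl f := by
  classical
  funext x
  have e1 : (-f = x) = (f = -x) := propext neg_eq_iff_eq_neg
  have e2 : (-f = -x) = (f = x) := propext neg_inj
  simp only [dl, Pi.neg_apply, e1, e2]
  ring

theorem dl_zero : dl (0 : G → ℤ) = 0 := by
  have h := dl_neg (0 : G → ℤ)
  rw [neg_zero] at h
  funext x
  have h1 := congrFun h x
  rw [Pi.neg_apply] at h1
  rw [Pi.zero_apply]
  omega

theorem dcnt_eq_sum {κ : Type} [Fintype κ] (t : κ → G → ℤ) : dcnt t = ∑ k, dl (t k) := by
  classical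
  funext x
  unfold dcnt
  rw [card_eq_sum, card_eq_sum, Finset.sum_apply, ← Finset.sum_sub_distrib]
  refine Finset.sum_congr rfl fun k _ => ?_
  unfold dl
  congr

end delta

/-! ### Existence of sign functions -/

section lift

variable {G : Type} [Group G]

/-- A sign function that is invariant under a subgroup which does not contain `c`. -/
theorem exists_sign (c : G) (hcomm : ∀ g, c * g = g * c) (hc2 : c * c = 1) (M : Subgroup G)
    (hcM : c ∉ M) : ∃ ε : G → ℤ, IsSign c ε ∧ ∀ m ∈ M, ∀ x, ε (m * x) = ε x := by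
  classical
  let V : Subgroup G :=
    { carrier := {v | v ∈ M ∨ c * v ∈ M}
      one_mem' := Or.inl M.one_mem
      mul_mem' := by
        rintro a b (ha | ha) (hb | hb)
        · exact Or.inl (M.mul_mem ha hb)
        · right
          have : c * (a * b) = a * (c * b) := by rw [← mul_assoc, hcomm a, mul_assoc]
          rw [this]
          exact M.mul_mem ha hb
        · right
          rw [← mul_assoc]
          exact M.mul_mem ha hb
        · left
          have : a * b = (c * a) * (c * b) := by
            rw [hcomm a, mul_assoc, ← mul_assoc c c b, hc2, one_mul]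
          rw [this]
          exact M.mul_mem ha hb
      inv_mem' := by
        rintro a (ha | ha)
        · exact Or.inl (M.inv_mem ha)
        · right
          have h1 := M.inv_mem ha
          rw [mul_inv_rev, inv_eq_of_mul_eq_one_left hc2, ← hcomm] at h1
          exact h1 }
  let r : G → G := fun x => (Quotient.mk (QuotientGroup.rightRel V) x).out
  have hr : ∀ x, x * (r x)⁻¹ ∈ V := by
    intro x
    have h1 : (QuotientGroup.rightRel V).r (r x) x := Quotient.exact (Quotient.out_eq _)
    exact QuotientGroup.rightRel_apply.1 h1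
  have hrel : ∀ x y, y * x⁻¹ ∈ V → r x = r y := by
    intro x y h
    have h1 : Quotient.mk (QuotientGroup.rightRel V) x = Quotient.mk (QuotientGroup.rightRel V) y :=
      Quotient.sound (QuotientGroup.rightRel_apply.2 h)
    change (Quotient.mk (QuotientGroup.rightRel V) x).out = _
    rw [h1]
  refine ⟨fun x => if x * (r x)⁻¹ ∈ M then 1 else -1, ⟨fun x => ?_, fun x => ?_⟩, fun m hm x => ?_⟩
  · by_cases h : x * (r x)⁻¹ ∈ M
    · exact Or.inl (if_pos h)
    · exact Or.inr (if_neg h)
  · have h1 : r x = r (c * x) := by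
      refine hrel _ _ ?_
      rw [mul_inv_cancel_right]
      right
      rw [hc2]
      exact M.one_mem
    change (if (c * x) * (r (c * x))⁻¹ ∈ M then (1 : ℤ) else -1) = -(if x * (r x)⁻¹ ∈ M then 1 else -1)
    rw [← h1, mul_assoc]
    rcases hr x with h2 | h2
    · have h3 : c * (x * (r x)⁻¹) ∉ M := fun h3 => hcM ((M.mul_mem_cancel_right h2).1 h3)
      rw [if_pos h2, if_neg h3]
    · have h3 : x * (r x)⁻¹ ∉ M := fun h3 => hcM ((M.mul_mem_cancel_right h3).1 h2)
      rw [if_pos h2, if_neg h3, neg_neg]
  · have h1 : r x = r (m * x) := by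
      refine hrel _ _ ?_
      rw [mul_inv_cancel_right]
      exact Or.inl hm
    change (if (m * x) * (r (m * x))⁻¹ ∈ M then (1 : ℤ) else -1) = (if x * (r x)⁻¹ ∈ M then 1 else -1)
    rw [← h1, mul_assoc]
    simp only [M.mul_mem_cancel_left hm]

end lift

/-! ### The exchange lemma -/

section exch

variable {G B : Type} [Group G] [Fintype G] [Group B] [Fintype B] (π : G →* B) (D : Subgroup G)
  (c : B)

open Classical in
/-- The function on `G` belonging to a function on `B`. -/
def ph (ε : B → ℤ) : G → ℤ := fun g => ∑ d : G, if d ∈ D then ε (π (d * g)) else 0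

theorem ph_neg (ε : B → ℤ) : ph π D (-ε) = -ph π D ε := by
  classical
  funext g
  unfold ph
  rw [Pi.neg_apply, ← Finset.sum_neg_distrib]
  refine Finset.sum_congr rfl fun d _ => ?_
  by_cases h : d ∈ D
  · rw [if_pos h, if_pos h, Pi.neg_apply]
  · rw [if_neg h, if_neg h, neg_zero]

theorem isSign_neg {ε : B → ℤ} (h : IsSign c ε) : IsSign c (-ε) := by
  refine ⟨fun x => ?_, fun x => ?_⟩
  · rw [Pi.neg_apply]
    rcases h.sign x with h1 | h1
    · right
      rw [h1]
    · left
      rw [h1, neg_neg]
  · rw [Pi.neg_apply, Pi.neg_apply, h.odd]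

/-- Left translation by elements of `D`. -/
theorem ph_translate (ε ε' : B → ℤ) (d : G) (hd : d ∈ D) (h : ∀ x, ε (π d * x) = ε' x) :
    ph π D ε = ph π D ε' := by
  classical
  funext g
  unfold ph
  rw [← Equiv.sum_comp (Equiv.mulLeft d)]
  refine Finset.sum_congr rfl fun d' _ => ?_
  rw [Equiv.coe_mulLeft, D.mul_mem_cancel_left hd, mul_assoc, map_mul, h]

theorem ph_eq_zero (hcomm : ∀ g, c * g = g * c) (d : G) (hd : d ∈ D) {ε : B → ℤ}
    (h : ∀ x, ε (π d * x) = -ε x) : ph π D ε = 0 := by
  have h1 := ph_translate π D ε (-ε) d hd (fun x => by rw [h, Pi.neg_apply])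
  rw [ph_neg] at h1
  funext g
  have h2 := congrFun h1 g
  rw [Pi.neg_apply] at h2
  rw [Pi.zero_apply]
  omega

variable (Q : (κ : Type) → (κ → G → ℤ) → Prop) (R : Set (G → ℤ))

section

variable (hmem : ∀ ε : B → ℤ, IsSign c ε → ph π D ε ∈ R)
  (h4 : ∀ b : Fin 4 → B → ℤ, (∀ k, IsSign c (b k)) → (∀ x, ∑ k, b k x = 0) →
    Q (Fin 4) fun k => ph π D (b k))

include hmem h4

theorem four {a b a' b' : B → ℤ} (ha : IsSign c a) (hb : IsSign c b) (ha' : IsSign c a')
    (hb' : IsSign c b') (h : ∀ x, a x + b x = a' x + b' x) :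
    GenD Q R (dl (ph π D a) + dl (ph π D b) - dl (ph π D a') - dl (ph π D b')) := by
  let t : Fin 4 → B → ℤ := ![a, b, -a', -b']
  have ht : ∀ k, IsSign c (t k) := by
    intro k
    fin_cases k
    · exact ha
    · exact hb
    · exact isSign_neg c ha'
    · exact isSign_neg c hb'
  have hsum : ∀ x, ∑ k, t k x = 0 := by
    intro x
    rw [Fin.sum_univ_four]
    change a x + b x + -a' x + -b' x = 0
    have := h x
    omega
  have h1 : GenD Q R (dcnt fun k => ph π D (t k)) := by
    refine GenD.of_good ⟨inferInstance, ?_, fun k => hmem _ (ht k), h4 t ht hsum, ?_⟩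
    · rw [Nat.card_eq_fintype_card, Fintype.card_fin]
      exact ⟨2, rfl⟩
    · have h2 := h4 (fun k => -t k) (fun k => isSign_neg c (ht k)) (fun x => by
        rw [← neg_zero, ← hsum x, ← Finset.sum_neg_distrib]
        rfl)
      simp only [ph_neg] at h2
      exact h2
  rw [dcnt_eq_sum, Fin.sum_univ_four] at h1
  have e : dl (ph π D (t 0)) + dl (ph π D (t 1)) + dl (ph π D (t 2)) + dl (ph π D (t 3)) =
      dl (ph π D a) + dl (ph π D b) - dl (ph π D a') - dl (ph π D b') := by
    change dl (ph π D a) + dl (ph π D b) + dl (ph π D (-a')) + dl (ph π D (-b')) = _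
    rw [ph_neg, ph_neg, dl_neg, dl_neg]
    ring
  rw [e] at h1
  exact h1

end

theorem GenD.sub {d d' : (G → ℤ) → ℤ} (h : GenD Q R d) (h' : GenD Q R d') :
    GenD Q R (d - d') := by
  rw [sub_eq_add_neg]
  exact h.add h'.neg

theorem GenD.sum {ι : Type} (s : Finset ι) (d : ι → (G → ℤ) → ℤ) (h : ∀ i ∈ s, GenD Q R (d i)) :
    GenD Q R (∑ i ∈ s, d i) := by
  classical
  induction s using Finset.induction_on with
  | empty =>
    rw [Finset.sum_empty]
    exact GenD.zero
  | insert a s ha ih =>
    rw [Finset.sum_insert ha]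
    exact (h a (Finset.mem_insert_self a s)).add (ih fun i hi => h i (Finset.mem_insert_of_mem hi))

theorem GenD.nsmul (m : ℕ) {d : (G → ℤ) → ℤ} (h : GenD Q R d) : GenD Q R (m • d) := by
  induction m with
  | zero =>
    rw [zero_smul]
    exact GenD.zero
  | succ m ih =>
    rw [succ_nsmul]
    exact ih.add h

open Classical in
/-- The sign function `e` with changed signs at the points of `S` and their conjugates. -/
def fl (e : B → ℤ) (S : Finset B) : B → ℤ := fun x => if x ∈ S ∨ c * x ∈ S then -e x else e x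

theorem isSign_fl (hc2 : c * c = 1) {e : B → ℤ} (he : IsSign c e) (S : Finset B) :
    IsSign c (fl c e S) := by
  classical
  refine ⟨fun x => ?_, fun x => ?_⟩
  · unfold fl
    by_cases h : x ∈ S ∨ c * x ∈ S
    · rw [if_pos h]
      rcases he.sign x with h1 | h1
      · right
        rw [h1]
      · left
        rw [h1, neg_neg]
    · rw [if_neg h]
      exact he.sign x
  · have h1 : (c • x ∈ S ∨ c * (c • x) ∈ S) ↔ (x ∈ S ∨ c * x ∈ S) := by
      rw [smul_eq_mul, ← mul_assoc, hc2, one_mul]
      exact or_comm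
    unfold fl
    by_cases h : x ∈ S ∨ c * x ∈ S
    · rw [if_pos h, if_pos (h1.2 h), he.odd]
    · rw [if_neg h, if_neg (fun h' => h (h1.1 h')), he.odd]

theorem fl_empty (e : B → ℤ) : fl c e ∅ = e := by
  classical
  funext x
  unfold fl
  rw [if_neg]
  rintro (h | h)
  · exact absurd h (Finset.notMem_empty _)
  · exact absurd h (Finset.notMem_empty _)

/-- The positive points. -/
def pos (e : B → ℤ) : Finset B := Finset.univ.filter fun x => e x = 1

theorem mem_pos (e : B → ℤ) (x : B) : x ∈ pos e ↔ e x = 1 := by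
  unfold pos
  rw [Finset.mem_filter]
  exact ⟨fun h => h.2, fun h => ⟨Finset.mem_univ _, h⟩⟩

/-- Points of `S` and conjugates of points of `S` are different. -/
theorem not_both {e : B → ℤ} (he : IsSign c e) {S : Finset B} (hS : S ⊆ pos e) {x : B}
    (h : x ∈ S) : c * x ∉ S := by
  intro h'
  have h1 := (mem_pos e x).1 (hS h)
  have h2 := (mem_pos e _).1 (hS h')
  have h3 := he.odd x
  rw [smul_eq_mul, h2, h1] at h3
  norm_num at h3

theorem fl_self (hc2 : c * c = 1) {e ε : B → ℤ} (he : IsSign c e) (hε : IsSign c ε) :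
    fl c e ((pos e).filter fun x => ε x = -1) = ε := by
  classical
  funext x
  have hm : ∀ y, y ∈ (pos e).filter (fun x => ε x = -1) ↔ e y = 1 ∧ ε y = -1 := by
    intro y
    rw [Finset.mem_filter, mem_pos]
  have h1 := he.odd x
  have h2 := hε.odd x
  rw [smul_eq_mul] at h1 h2
  have key : (x ∈ (pos e).filter (fun x => ε x = -1) ∨
      c * x ∈ (pos e).filter (fun x => ε x = -1)) ↔ ε x ≠ e x := by
    rw [hm, hm, h1, h2]
    rcases he.sign x with a | a <;> rcases hε.sign x with b | b <;> rw [a, b] <;> norm_num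
  unfold fl
  by_cases h : x ∈ (pos e).filter (fun x => ε x = -1) ∨
      c * x ∈ (pos e).filter (fun x => ε x = -1)
  · rw [if_pos h]
    have h3 := key.1 h
    rcases he.sign x with a | a <;> rcases hε.sign x with b | b <;> omega
  · rw [if_neg h]
    have h3 := mt key.2 h
    push Not at h3
    exact h3.symm

theorem fl_pos {e : B → ℤ} (he : IsSign c e) : fl c e (pos e) = -e := by
  classical
  funext x
  have key : x ∈ pos e ∨ c * x ∈ pos e := by
    rw [mem_pos, mem_pos]
    rcases he.sign x with a | a
    · exact Or.inl a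
    · right
      have h1 := he.odd x
      rw [smul_eq_mul] at h1
      rw [h1, a, neg_neg]
  unfold fl
  rw [if_pos key, Pi.neg_apply]

theorem fl_insert [DecidableEq B] (hc2 : c * c = 1) {e : B → ℤ} (he : IsSign c e) {S : Finset B}
    {i : B} (hi : i ∉ S) (hS : insert i S ⊆ pos e) (x : B) :
    fl c e (insert i S) x + e x = fl c e S x + fl c e {i} x := by
  classical
  have hS' : S ⊆ pos e := fun y hy => hS (Finset.mem_insert_of_mem hy)
  have hii : i ∈ pos e := hS (Finset.mem_insert_self i S)
  have hci : c * i ∉ S := fun h => by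
    have h2 := (mem_pos e _).1 (hS' h)
    have h1 := (mem_pos e _).1 hii
    have h3 := he.odd i
    rw [smul_eq_mul, h2, h1] at h3
    norm_num at h3
  unfold fl
  simp only [Finset.mem_insert, Finset.mem_singleton]
  by_cases h1 : x ∈ S ∨ c * x ∈ S
  · have h2 : ¬ (x = i ∨ c * x = i) := by
      rintro (h | h)
      · subst h
        rcases h1 with h1 | h1
        · exact hi h1
        · exact hci h1
      · rcases h1 with h1 | h1
        · apply hci
          rw [← h, ← mul_assoc, hc2, one_mul]
          exact h1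
        · rw [h] at h1
          exact hi h1
    have h3 : (x = i ∨ x ∈ S) ∨ c * x = i ∨ c * x ∈ S := by
      rcases h1 with h1 | h1
      · exact Or.inl (Or.inr h1)
      · exact Or.inr (Or.inr h1)
    rw [if_pos h1, if_neg h2, if_pos h3]
  · by_cases h2 : x = i ∨ c * x = i
    · have h3 : (x = i ∨ x ∈ S) ∨ c * x = i ∨ c * x ∈ S := by
        rcases h2 with h2 | h2
        · exact Or.inl (Or.inl h2)
        · exact Or.inr (Or.inl h2)
      rw [if_neg h1, if_pos h2, if_pos h3]
      ring
    · have h3 : ¬ ((x = i ∨ x ∈ S) ∨ c * x = i ∨ c * x ∈ S) := by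
        rintro ((h | h) | (h | h))
        · exact h2 (Or.inl h)
        · exact h1 (Or.inl h)
        · exact h2 (Or.inr h)
        · exact h1 (Or.inr h)
      rw [if_neg h1, if_neg h2, if_neg h3]

/-- The difference belonging to one change of signs. -/
def uu (e : B → ℤ) (i : B) : (G → ℤ) → ℤ := dl (ph π D (fl c e {i})) - dl (ph π D e)

variable (hmem : ∀ ε : B → ℤ, IsSign c ε → ph π D ε ∈ R)
  (h4 : ∀ b : Fin 4 → B → ℤ, (∀ k, IsSign c (b k)) → (∀ x, ∑ k, b k x = 0) →
    Q (Fin 4) fun k => ph π D (b k))

include hmem h4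

theorem claimA (hc2 : c * c = 1) {e : B → ℤ} (he : IsSign c e) (S : Finset B) (hS : S ⊆ pos e) :
    GenD Q R (dl (ph π D (fl c e S)) - dl (ph π D e) - ∑ i ∈ S, uu π D c e i) := by
  classical
  induction S using Finset.induction_on with
  | empty =>
    rw [fl_empty, Finset.sum_empty, sub_self, sub_zero]
    exact GenD.zero
  | insert i S hi ih =>
    have h1 := ih fun y hy => hS (Finset.mem_insert_of_mem hy)
    have h2 := four π D c Q R hmem h4 (isSign_fl c hc2 he (insert i S)) he
      (isSign_fl c hc2 he S) (isSign_fl c hc2 he {i}) (fl_insert c hc2 he hi hS)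
    have h3 := h1.add h2
    have e1 : (dl (ph π D (fl c e S)) - dl (ph π D e) - ∑ i ∈ S, uu π D c e i) +
        (dl (ph π D (fl c e (insert i S))) + dl (ph π D e) - dl (ph π D (fl c e S)) -
          dl (ph π D (fl c e {i}))) =
        dl (ph π D (fl c e (insert i S))) - dl (ph π D e) - ∑ j ∈ insert i S, uu π D c e j := by
      rw [Finset.sum_insert hi]
      unfold uu
      abel
    rw [e1] at h3
    exact h3

end exch

end

end Pool.Agent.Y137.SF
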