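import Pool.Agent.Y137.SF.Exch

/-!
# Balanced families of sign functions are combinations of families with four members
-/

set_option autoImplicit false
set_option linter.unusedSectionVars false
set_option linter.unusedVariables false

namespace Pool.Agent.Y137.SF

open Pool.Agent.W495.TA Pool.Agent.W495.TC Pool.Agent.TH117.BL

noncomputable section

variable {G B : Type} [Group G] [Fintype G] [Group B] [Fintype B] (π : G →* B) (D : Subgroup G)
  (c : B)

/-- The differences are invariant under `D`, if the sign function `e` is invariant. -/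
theorem uu_smul (hcomm : ∀ g, c * g = g * c) {e : B → ℤ}
    (heD : ∀ d ∈ D, ∀ x, e (π d * x) = e x) (d : G) (hd : d ∈ D) (i : B) :
    uu π D c e (π d * i) = uu π D c e i := by
  classical
  unfold uu
  congr 2
  refine ph_translate π D _ _ d hd fun x => ?_
  unfold fl
  simp only [Finset.mem_singleton]
  have h1 : (π d * x = π d * i ∨ c * (π d * x) = π d * i) ↔ (x = i ∨ c * x = i) := by
    rw [← mul_assoc, hcomm, mul_assoc, mul_right_inj, mul_right_inj]
  by_cases h : x = i ∨ c * x = i
  · rw [if_pos h, if_pos (h1.2 h), heD d hd]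
  · rw [if_neg h, if_neg (fun h' => h (h1.1 h')), heD d hd]

/-- The number of negative values. -/
def ncnt {κ : Type} [Fintype κ] (ε : κ → B → ℤ) (i : B) : ℤ := ∑ k, if ε k i = -1 then 1 else 0

theorem sum_val {κ : Type} [Fintype κ] (ε : κ → B → ℤ) (hε : ∀ k, IsSign c (ε k)) (i : B) :
    ∑ k, ε k i = Fintype.card κ - 2 * ncnt ε i := by
  unfold ncnt
  rw [Finset.mul_sum, Fintype.card_eq_sum_ones]
  push_cast
  rw [← Finset.sum_sub_distrib]
  refine Finset.sum_congr rfl fun k _ => ?_
  rcases (hε k).sign i with h | h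
  · rw [h, if_neg (by norm_num)]
    norm_num
  · rw [h, if_pos rfl]
    norm_num

open Classical in
/-- The averages over `D`. -/
theorem sum_ncnt {κ : Type} [Fintype κ] (ε : κ → B → ℤ) (hε : ∀ k, IsSign c (ε k))
    (hbal : ∀ g, ∑ k, ph π D (ε k) g = 0) (g : G) :
    ∑ d : G, (if d ∈ D then 2 * ncnt ε (π (d * g)) - Fintype.card κ else 0) = 0 := by
  have h1 := hbal g
  have h2 : ∑ k, ph π D (ε k) g = ∑ d : G, (if d ∈ D then ∑ k, ε k (π (d * g)) else 0) := by
    unfold ph
    rw [Finset.sum_comm]
    refine Finset.sum_congr rfl fun d _ => ?_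
    by_cases h : d ∈ D
    · simp only [if_pos h]
    · simp only [if_neg h, Finset.sum_const_zero]
  rw [h2] at h1
  have h3 : ∑ d : G, (if d ∈ D then 2 * ncnt ε (π (d * g)) - (Fintype.card κ : ℤ) else 0) =
      -∑ d : G, (if d ∈ D then ∑ k, ε k (π (d * g)) else 0) := by
    rw [← Finset.sum_neg_distrib]
    refine Finset.sum_congr rfl fun d _ => ?_
    by_cases h : d ∈ D
    · rw [if_pos h, if_pos h, sum_val c ε hε]
      ring
    · rw [if_neg h, if_neg h, neg_zero]
  rw [h3, h1, neg_zero]

/-- The weighted sum of the differences. -/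
theorem claimC (hπ : Function.Surjective π) (hcomm : ∀ g, c * g = g * c) {e : B → ℤ}
    (he : IsSign c e) (heD : ∀ d ∈ D, ∀ x, e (π d * x) = e x) {κ : Type} [Fintype κ]
    (ε : κ → B → ℤ) (hε : ∀ k, IsSign c (ε k)) (hbal : ∀ g, ∑ k, ph π D (ε k) g = 0) :
    ∑ i ∈ pos e, (2 * ncnt ε i - Fintype.card κ) • uu π D c e i = 0 := by
  classical
  -- the sum over the translates by `d`
  have h1 : ∀ d ∈ D, ∑ i ∈ pos e, (2 * ncnt ε (π d * i) - Fintype.card κ) • uu π D c e i =
      ∑ i ∈ pos e, (2 * ncnt ε i - Fintype.card κ) • uu π D c e i := by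
    intro d hd
    have h2 : ∑ i ∈ pos e, (2 * ncnt ε (π d * i) - (Fintype.card κ : ℤ)) • uu π D c e i =
        ∑ i ∈ pos e, (2 * ncnt ε (π d * i) - (Fintype.card κ : ℤ)) • uu π D c e (π d * i) :=
      Finset.sum_congr rfl fun i _ => by rw [uu_smul π D c hcomm heD d hd]
    rw [h2]
    refine Finset.sum_bij' (fun i _ => π d * i) (fun i _ => (π d)⁻¹ * i) ?_ ?_ ?_ ?_ ?_
    · intro i hi
      rw [mem_pos] at hi ⊢
      rw [heD d hd, hi]
    · intro i hi
      rw [mem_pos] at hi ⊢
      rw [← heD d hd, mul_inv_cancel_left, hi]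
    · intro i _
      exact inv_mul_cancel_left _ _
    · intro i _
      exact mul_inv_cancel_left _ _
    · intro i _
      rfl
  -- the sum over all `d`
  have h3 : ∑ d : G, (if d ∈ D then ∑ i ∈ pos e, (2 * ncnt ε (π d * i) - (Fintype.card κ : ℤ)) •
      uu π D c e i else 0) = 0 := by
    have h4 : ∀ d : G, (if d ∈ D then ∑ i ∈ pos e, (2 * ncnt ε (π d * i) - (Fintype.card κ : ℤ)) •
        uu π D c e i else 0) = ∑ i ∈ pos e, (if d ∈ D then (2 * ncnt ε (π d * i) -
          (Fintype.card κ : ℤ)) else 0) • uu π D c e i := by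
      intro d
      by_cases h : d ∈ D
      · simp only [if_pos h]
      · simp only [if_neg h, zero_smul, Finset.sum_const_zero]
    rw [Finset.sum_congr rfl fun d _ => h4 d, Finset.sum_comm]
    refine Finset.sum_eq_zero fun i _ => ?_
    obtain ⟨g, rfl⟩ := hπ i
    rw [← Finset.sum_smul]
    have h5 := sum_ncnt π D c ε hε hbal g
    simp only [map_mul] at h5
    rw [h5, zero_smul]
  have h6 : ∑ d : G, (if d ∈ D then ∑ i ∈ pos e, (2 * ncnt ε (π d * i) - (Fintype.card κ : ℤ)) •
      uu π D c e i else 0) = (∑ d : G, if d ∈ D then (1 : ℤ) else 0) •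
        ∑ i ∈ pos e, (2 * ncnt ε i - (Fintype.card κ : ℤ)) • uu π D c e i := by
    rw [Finset.sum_smul]
    refine Finset.sum_congr rfl fun d _ => ?_
    by_cases h : d ∈ D
    · rw [if_pos h, if_pos h, one_smul, h1 d h]
    · rw [if_neg h, if_neg h, zero_smul]
  rw [h6] at h3
  have h7 : (0 : ℤ) < ∑ d : G, if d ∈ D then (1 : ℤ) else 0 := by
    refine Finset.sum_pos' (fun d _ => ?_) ⟨1, Finset.mem_univ _, ?_⟩
    · split_ifs <;> norm_num
    · rw [if_pos D.one_mem]
      norm_num
  funext x
  have h8 := congrFun h3 x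
  rw [Pi.smul_apply, smul_eq_mul, Pi.zero_apply] at h8
  exact (mul_eq_zero.1 h8).resolve_left h7.ne'

variable (Q : (κ : Type) → (κ → G → ℤ) → Prop) (R : Set (G → ℤ))
  (hmem : ∀ ε : B → ℤ, IsSign c ε → ph π D ε ∈ R)
  (h4 : ∀ b : Fin 4 → B → ℤ, (∀ k, IsSign c (b k)) → (∀ x, ∑ k, b k x = 0) →
    Q (Fin 4) fun k => ph π D (b k))

include hmem h4

/-- Families with an even number of members. -/
theorem exch_even (hπ : Function.Surjective π) (hcomm : ∀ g, c * g = g * c) (hc2 : c * c = 1)
    {e : B → ℤ} (he : IsSign c e) (heD : ∀ d ∈ D, ∀ x, e (π d * x) = e x) {κ : Type} [Fintype κ]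
    (ε : κ → B → ℤ) (hε : ∀ k, IsSign c (ε k)) (hbal : ∀ g, ∑ k, ph π D (ε k) g = 0)
    (heven : Even (Fintype.card κ)) : GenD Q R (dcnt fun k => ph π D (ε k)) := by
  classical
  obtain ⟨m, hm⟩ := heven
  rw [dcnt_eq_sum]
  -- the terms
  let S : κ → Finset B := fun k => (pos e).filter fun x => ε k x = -1
  have hS : ∀ k, fl c e (S k) = ε k := fun k => fl_self c hc2 he (hε k)
  have h1 : GenD Q R (∑ k, (dl (ph π D (ε k)) - dl (ph π D e) - ∑ i ∈ S k, uu π D c e i)) := by
    refine GenD.sum Q R _ _ fun k _ => ?_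
    have h2 := claimA π D c Q R hmem h4 hc2 he (S k) (Finset.filter_subset _ _)
    rw [hS k] at h2
    exact h2
  have h2 : GenD Q R ((m : ℕ) • (dl (ph π D e) + dl (ph π D e) + ∑ i ∈ pos e, uu π D c e i)) := by
    have h3 := claimA π D c Q R hmem h4 hc2 he (pos e) (Finset.Subset.refl _)
    rw [fl_pos c he, ph_neg, dl_neg] at h3
    have h5 := h3.neg
    have e1 : -(-dl (ph π D e) - dl (ph π D e) - ∑ i ∈ pos e, uu π D c e i) =
        dl (ph π D e) + dl (ph π D e) + ∑ i ∈ pos e, uu π D c e i := by
      abel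
    rw [e1] at h5
    exact GenD.nsmul Q R m h5
  have h3 := h1.add h2
  -- the weighted sums
  have h5 : ∑ k, ∑ i ∈ S k, uu π D c e i = ∑ i ∈ pos e, ncnt ε i • uu π D c e i := by
    have e1 : ∀ k, ∑ i ∈ S k, uu π D c e i =
        ∑ i ∈ pos e, (if ε k i = -1 then (1 : ℤ) else 0) • uu π D c e i := by
      intro k
      rw [Finset.sum_filter]
      refine Finset.sum_congr rfl fun i _ => ?_
      by_cases h : ε k i = -1
      · rw [if_pos h, if_pos h, one_smul]
      · rw [if_neg h, if_neg h, zero_smul]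
    rw [Finset.sum_congr rfl fun k _ => e1 k, Finset.sum_comm]
    refine Finset.sum_congr rfl fun i _ => ?_
    unfold ncnt
    rw [Finset.sum_smul]
  have h6 := claimC π D c hπ hcomm he heD ε hε hbal
  have h7 : ∑ i ∈ pos e, ncnt ε i • uu π D c e i = (m : ℕ) • ∑ i ∈ pos e, uu π D c e i := by
    funext x
    have h8 := congrFun h6 x
    rw [Finset.sum_apply, Pi.zero_apply] at h8
    rw [Finset.sum_apply, Pi.smul_apply, Finset.sum_apply, nsmul_eq_mul]
    have h9 : (2 : ℤ) * (∑ i ∈ pos e, (ncnt ε i • uu π D c e i) x -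
        (m : ℤ) * ∑ i ∈ pos e, uu π D c e i x) = 0 := by
      rw [← h8, mul_sub, Finset.mul_sum, Finset.mul_sum, Finset.mul_sum, ← Finset.sum_sub_distrib]
      refine Finset.sum_congr rfl fun i _ => ?_
      rw [hm, Pi.smul_apply, Pi.smul_apply, smul_eq_mul, smul_eq_mul]
      push_cast
      ring
    have h10 := (mul_eq_zero.1 h9).resolve_left (by norm_num)
    linarith
  have h8 : ∑ k, (dl (ph π D (ε k)) - dl (ph π D e) - ∑ i ∈ S k, uu π D c e i) +
      (m : ℕ) • (dl (ph π D e) + dl (ph π D e) + ∑ i ∈ pos e, uu π D c e i) =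
      ∑ k, dl (ph π D (ε k)) := by
    rw [Finset.sum_sub_distrib, Finset.sum_sub_distrib, h5, h7, Finset.sum_const,
      Finset.card_univ, hm]
    rw [smul_add, smul_add, add_smul]
    abel
  rw [h8] at h3
  exact h3

/-- A sign function with the function zero on `G`. -/
theorem exists_zero (hcomm : ∀ g, c * g = g * c) (hc2 : c * c = 1)
    (hc1 : c ≠ 1) (hcD : c ∉ D.map π) (heven : Even (Nat.card (D.map π))) :
    ∃ T : B → ℤ, IsSign c T ∧ ph π D T = 0 := by
  classical
  have : Fact (Nat.Prime 2) := ⟨Nat.prime_two⟩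
  obtain ⟨x0, hx0⟩ := exists_prime_orderOf_dvd_card' 2 heven.two_dvd
  obtain ⟨d0, hd0, hd0'⟩ := x0.2
  have hx2 : (x0 : B) * x0 = 1 := by
    have h1 := pow_orderOf_eq_one x0
    rw [hx0, pow_two] at h1
    exact congrArg Subtype.val h1
  have hx1 : (x0 : B) ≠ 1 := by
    intro h
    have h1 : x0 = 1 := Subtype.ext h
    rw [h1, orderOf_one] at hx0
    norm_num at hx0
  have hcx : c * (x0 : B) ≠ 1 := by
    intro h
    apply hcD
    have h1 : c = ((x0 : B))⁻¹ := eq_inv_of_mul_eq_one_left h
    rw [h1]
    exact (D.map π).inv_mem x0.2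
  -- the subgroup generated by `c * x0`
  have hsq : (c * (x0 : B)) * (c * x0) = 1 := by
    have h1 : (c * (x0 : B)) * (c * x0) = (c * c) * (x0 * x0) := by
      rw [mul_assoc, ← mul_assoc (x0 : B) c, ← hcomm (x0 : B), mul_assoc c (x0 : B),
        ← mul_assoc c c]
    rw [h1, hc2, one_mul, hx2]
  have hcM : c ∉ Subgroup.zpowers (c * (x0 : B)) := by
    intro h
    rw [Subgroup.mem_zpowers_iff] at h
    obtain ⟨k, hk⟩ := h
    rcases Int.even_or_odd k with ⟨l, hl⟩ | ⟨l, hl⟩
    · rw [hl, ← two_mul, zpow_mul, zpow_ofNat, pow_two, hsq, one_zpow] at hk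
      exact hc1 hk.symm
    · rw [hl, zpow_add, zpow_mul, zpow_ofNat, pow_two, hsq, one_zpow, one_mul, zpow_one] at hk
      apply hx1
      exact mul_left_cancel (hk.trans (mul_one c).symm)
  obtain ⟨T, hT, hTM⟩ := exists_sign c hcomm hc2 _ hcM
  refine ⟨T, hT, ph_eq_zero π D c hcomm d0 hd0 fun x => ?_⟩
  have h1 : π d0 * x = c * ((c * (x0 : B)) * x) := by
    rw [hd0', ← mul_assoc, ← mul_assoc, hc2, one_mul]
  have h2 := hT.odd ((c * (x0 : B)) * x)
  rw [smul_eq_mul] at h2
  rw [h1, h2, hTM _ (Subgroup.mem_zpowers _)]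

/-- The exchange lemma: all balanced families are combinations of families with four members. -/
theorem exch (hπ : Function.Surjective π) (hcomm : ∀ g, c * g = g * c) (hc2 : c * c = 1)
    (hc1 : c ≠ 1) {κ : Type} [Fintype κ]
    (ε : κ → B → ℤ) (hε : ∀ k, IsSign c (ε k)) (hbal : ∀ g, ∑ k, ph π D (ε k) g = 0) :
    GenD Q R (dcnt fun k => ph π D (ε k)) := by
  classical
  by_cases hcD : c ∈ D.map π
  · -- all functions are zero
    obtain ⟨d, hd, hdc⟩ := hcD
    have h0 : ∀ k, ph π D (ε k) = 0 := fun k => ph_eq_zero π D c hcomm d hd fun x => by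
      rw [hdc]
      exact (hε k).odd x
    have h1 : dcnt (fun k => ph π D (ε k)) = 0 := by
      rw [dcnt_eq_sum]
      refine Finset.sum_eq_zero fun k _ => ?_
      rw [h0 k, dl_zero]
    rw [h1]
    exact GenD.zero
  · obtain ⟨e, he, heM⟩ := exists_sign c hcomm hc2 _ hcD
    have heD : ∀ d ∈ D, ∀ x, e (π d * x) = e x := fun d hd x => heM _ ⟨d, hd, rfl⟩ x
    rcases Nat.even_or_odd (Fintype.card κ) with hev | hodd
    · exact exch_even π D c Q R hmem h4 hπ hcomm hc2 he heD ε hε hbal hev
    · -- the number of elements of the image of `D` is even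
      have hpar : Even (Nat.card (D.map π)) := by
        -- the multiplicity
        let m : ℤ := ∑ d : G, if d ∈ D ∧ π d = 1 then 1 else 0
        have hm : 0 < m := by
          refine Finset.sum_pos' (fun d _ => ?_) ⟨1, Finset.mem_univ _, ?_⟩
          · split_ifs <;> norm_num
          · rw [if_pos ⟨D.one_mem, map_one π⟩]
            norm_num
        have hfib : ∀ y ∈ D.map π, (∑ d : G, if d ∈ D ∧ π d = y then (1 : ℤ) else 0) = m := by
          rintro y ⟨d0, hd0, rfl⟩
          change _ = ∑ d : G, if d ∈ D ∧ π d = 1 then (1 : ℤ) else 0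
          rw [← Equiv.sum_comp (Equiv.mulLeft d0)]
          refine Finset.sum_congr rfl fun d _ => ?_
          rw [Equiv.coe_mulLeft, map_mul]
          have e1 : (d0 * d ∈ D ∧ π d0 * π d = π d0) ↔ (d ∈ D ∧ π d = 1) := by
            rw [D.mul_mem_cancel_left hd0, mul_eq_left]
          by_cases h : d ∈ D ∧ π d = 1
          · rw [if_pos h, if_pos (e1.2 h)]
          · rw [if_neg h, if_neg (fun h' => h (e1.1 h'))]
        have hph : ∀ k, ph π D (ε k) 1 = m * ∑ y : B, (if y ∈ D.map π then ε k y else 0) := by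
          intro k
          have e1 : ph π D (ε k) 1 = ∑ d : G, ∑ y : B, (if d ∈ D ∧ π d = y then ε k y else 0) := by
            unfold ph
            refine Finset.sum_congr rfl fun d _ => ?_
            rw [mul_one]
            by_cases hd : d ∈ D
            · rw [if_pos hd, Finset.sum_eq_single (π d)]
              · rw [if_pos ⟨hd, rfl⟩]
              · intro y _ hy
                rw [if_neg (fun h => hy h.2.symm)]
              · intro h
                exact absurd (Finset.mem_univ _) h
            · rw [if_neg hd]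
              refine (Finset.sum_eq_zero fun y _ => ?_).symm
              rw [if_neg (fun h => hd h.1)]
          rw [e1, Finset.sum_comm, Finset.mul_sum]
          refine Finset.sum_congr rfl fun y _ => ?_
          by_cases hy : y ∈ D.map π
          · rw [if_pos hy, ← hfib y hy, Finset.sum_mul]
            refine Finset.sum_congr rfl fun d _ => ?_
            by_cases h : d ∈ D ∧ π d = y
            · rw [if_pos h, if_pos h, one_mul]
            · rw [if_neg h, if_neg h, zero_mul]
          · rw [if_neg hy, mul_zero]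
            refine Finset.sum_eq_zero fun d _ => ?_
            rw [if_neg]
            rintro ⟨h1, h2⟩
            exact hy ⟨d, h1, h2⟩
        have h1 := hbal 1
        rw [Finset.sum_congr rfl fun k _ => hph k, ← Finset.mul_sum] at h1
        have h2 := (mul_eq_zero.1 h1).resolve_left hm.ne'
        -- parity
        have h3 : (Fintype.card κ : ℤ) * Nat.card (D.map π) -
            ∑ k, ∑ y : B, (if y ∈ D.map π then ε k y else 0) =
            2 * ∑ k : κ, ∑ y : B, (if y ∈ D.map π ∧ ε k y = -1 then 1 else 0) := by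
          have e1 : (Fintype.card κ : ℤ) * Nat.card (D.map π) =
              ∑ k : κ, ∑ y : B, (if y ∈ D.map π then 1 else 0) := by
            rw [Finset.sum_const, Finset.card_univ, nsmul_eq_mul, Finset.sum_boole]
            congr 1
            rw [Nat.card_eq_fintype_card, Fintype.card_subtype]
          rw [e1, ← Finset.sum_sub_distrib, Finset.mul_sum]
          refine Finset.sum_congr rfl fun k _ => ?_
          rw [← Finset.sum_sub_distrib, Finset.mul_sum]
          refine Finset.sum_congr rfl fun y _ => ?_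
          by_cases hy : y ∈ D.map π
          · rcases (hε k).sign y with h | h
            · rw [if_pos hy, if_pos hy, h, if_neg (by norm_num)]
              norm_num
            · rw [if_pos hy, if_pos hy, h, if_pos ⟨hy, rfl⟩]
              norm_num
          · rw [if_neg hy, if_neg hy, if_neg (fun h => hy h.1)]
            norm_num
        rw [h2, sub_zero] at h3
        have h5 : Even ((Fintype.card κ : ℤ) * Nat.card (D.map π)) :=
          ⟨_, h3.trans (two_mul _)⟩
        rw [Int.even_mul] at h5
        rcases h5 with h5 | h5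
        · exact absurd ((Int.even_coe_nat _).1 h5) (Nat.not_even_iff_odd.2 hodd)
        · exact (Int.even_coe_nat _).1 h5
      obtain ⟨T, hT, hT0⟩ := exists_zero π D c Q R hmem h4 hcomm hc2 hc1 hcD hpar
      have h1 := exch_even π D c Q R hmem h4 hπ hcomm hc2 he heD
        (κ := Option κ) (fun o => o.elim T ε) (by
          rintro (_ | k)
          · exact hT
          · exact hε k) (fun g => by
          rw [Fintype.sum_option]
          change ph π D T g + ∑ k, ph π D (ε k) g = 0
          rw [hT0, hbal g]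
          rfl) (by
          rw [Fintype.card_option]
          exact hodd.add_one)
      rw [dcnt_eq_sum, Fintype.sum_option] at h1
      rw [dcnt_eq_sum]
      have e1 : dl (ph π D T) = 0 := by rw [hT0, dl_zero]
      have e2 : dl (ph π D ((none : Option κ).elim T ε)) +
          ∑ k : κ, dl (ph π D ((some k).elim T ε)) = ∑ k, dl (ph π D (ε k)) := by
        change dl (ph π D T) + ∑ k, dl (ph π D (ε k)) = _
        rw [e1, zero_add]
      rw [e2] at h1
      exact h1

end

end Pool.Agent.Y137.SF
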