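import Pool.Agent.Y137.SF.Alg

/-!
# Reductions of Hodge classes of degree four on products of four elliptic curves and abelian surfaces
-/

set_option autoImplicit false
set_option linter.unusedSectionVars false

namespace Pool.Agent.Y137.SF

open NumberField Pool.Agent.H204R3.CM Pool.Agent.W547.KB Pool.Agent.W547.LD Pool.Agent.W495.TA Module
  Pool.Agent.W495.TB Pool.Agent.W495.TC Pool.Agent.W417.TA Pool.Agent.W976.TA
open scoped TensorProduct

noncomputable section

variable {p : ℕ} [Fact p.Prime] {ν : PadicAlgCl p ≃+* ℂ} {Ω : Type} [Field Ω] [CharZero Ω]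
  {L : Type} [Field L] [NumberField L] [IsCMField L] [IsGalois ℚ L] {W : Set ℕ}

/-- The degree of the CM field of a half system. -/
theorem finrank_pairOf (j : L →+* ℂ) (S : Set (L ≃ₐ[ℚ] L)) (hS : IsHalf S) :
    finrank ℚ (pairOf j S hS).E = (stab S).index := by
  change finrank ℚ (fld S) = (stab S).index
  have h1 : finrank (fld S) L = Nat.card (stab S) :=
    IntermediateField.finrank_fixedField_eq_card (stab S)
  have h2 : finrank ℚ (fld S) * finrank (fld S) L = finrank ℚ L :=
    Module.finrank_mul_finrank ℚ (fld S) L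
  have h3 : Nat.card (L ≃ₐ[ℚ] L) = finrank ℚ L := IsGalois.card_aut_eq_finrank ℚ L
  have h4 : (stab S).index * Nat.card (stab S) = Nat.card (L ≃ₐ[ℚ] L) :=
    Subgroup.index_mul_card (stab S)
  have h5 : 0 < Nat.card (stab S) := Nat.card_pos
  rw [h1] at h2
  rw [← h3] at h2
  exact Nat.eq_of_mul_eq_mul_right h5 (h2.trans h4.symm)

/-- The family of four half systems. -/
theorem geo (W : Set ℕ) (j : L →+* ℂ) (jO : L →+* Ω) (y : Fin 4 → Set (L ≃ₐ[ℚ] L))
    (hy : ∀ k, IsHalf (y k)) (hidx : ∀ k, (stab (y k)).index ≤ 4) (hbal : Balanced y) :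
    AlgMS W p ν j jO (Fin 4) (fun k => tf p ν j (y k)) := by
  classical
  have hex : ∀ q, ∃ (a : ℕ) (π : fld (y q)), 0 < a ∧
      IsFrobenius p ν (pairOf j (y q) (hy q)) a π := fun q =>
    Pool.Agent.W902.TB.honda Pool.Agent.W366.TA.val p ν L j (y q) (hy q)
  choose a π ha hπ using hex
  let Z : RedAV p ν :=
    { X := prodOf j y hy
      a := ∏ q, a q
      pos := Finset.prod_pos fun q _ => ha q
      π := fun q => (show (pairOf j (y q) (hy q)).E from π q) ^
        (∏ q' ∈ Finset.univ.erase q, a q')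
      frob := fun q => by
        have h1 := isFrob_pow (hπ q) (∏ q' ∈ Finset.univ.erase q, a q')
        have h2 : a q * ∏ q' ∈ Finset.univ.erase q, a q' = ∏ q, a q :=
          Finset.mul_prod_erase _ _ (Finset.mem_univ q)
        rw [h2] at h1
        exact h1 }
  let J : Fin 4 → Wt Z.X L := fun k => wt j y hy k 1
  have hSt : ∀ k, St j (J k) = y k := fun k => by
    have h1 : St j (J k) = tr 1 (y k) := St_wt j y hy k 1
    rw [h1, tr_one]
  have hinj : Function.Injective J := fun k k' h => wt_fst_eq j y hy h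
  have hbal' : Balanced fun k => St j (J k) := by
    have h1 : (fun k => St j (J k)) = y := funext hSt
    rw [h1]
    exact hbal
  have hJ : AlgS Ω W Z (Fin 4) (monoO jO J) := by
    refine Pool.Agent.Y137.SF.monoO_mem_of_trO jO J fun α => ?_
    exact AlgS.surfaces (Ω := Ω) (W := W) (Y := Z) (fun q => by
      change finrank ℚ (pairOf j (y q) (hy q)).E ≤ 4
      rw [finrank_pairOf]
      exact hidx q) (trForm α J) (isHodge_trForm j J hbal' α) (trO jO α J)
      (fun v => trO_tmul jO α J v)
  have h3 := @pullS p _ ν Ω _ _ L _ _ _ _ W j jO Z (big_prodOf j y hy) _ _ _ J hinj hJ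
  have h4 : (fun k => tf p ν j (St j (J k))) = fun k => tf p ν j (y k) := by
    funext k
    rw [hSt k]
  rw [h4] at h3
  exact @h3

end

end Pool.Agent.Y137.SF
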