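import Pool.Agent.Y137.SF.Stab
import Pool.Agent.Y137.SF.Exch2
import Pool.Agent.Y137.SF.Geo

/-!
# Balanced families of half systems with stabilizers of index at most four
-/

set_option autoImplicit false
set_option linter.unusedSectionVars false
set_option linter.unusedVariables false

namespace Pool.Agent.Y137.SF

open NumberField Pool.Agent.H204R3.CM Pool.Agent.W547.KB Pool.Agent.W547.LD Pool.Agent.W495.TA Module
  Pool.Agent.W495.TB Pool.Agent.W495.TC Pool.Agent.TH117.BL
open scoped TensorProduct

noncomputable section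

section sep

variable {G : Type} [Group G] [Fintype G] (c : G) (hcomm : ∀ g, c * g = g * c) (hc2 : c * c = 1)

include hcomm hc2

open Classical in
/-- The sums over the cosets of a normal subgroup that is not contained in the stabilizer vanish. -/
theorem sep (f : G → ℤ) (hf : IsSign c f) (hidx : (rst f).index ≤ 4) (N : Subgroup G) [hNn : N.Normal]
    (hN : ¬ N ≤ rst f) (g : G) : ∑ n : G, (if n ∈ N then f (g * n) else 0) = 0 := by
  have hfc : ∀ x, f (c * x) = -f x := fun x => hf.odd x
  by_cases hcK : c ∈ N ⊔ rst f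
  · -- the sum is invariant under `c`
    obtain ⟨n, hn, h, hh, hnh⟩ := Subgroup.mem_sup_of_normal_left.1 hcK
    let e : G ≃ G := (Equiv.mulLeft c).trans (Equiv.mulRight h⁻¹)
    have he : ∀ m, e m = c * m * h⁻¹ := fun m => rfl
    have h1 : ∑ m : G, (if m ∈ N then f (g * m) else 0) =
        -∑ m : G, (if m ∈ N then f (g * m) else 0) := by
      conv_lhs => rw [← Equiv.sum_comp e]
      rw [← Finset.sum_neg_distrib]
      refine Finset.sum_congr rfl fun m _ => ?_
      rw [he]
      have h2 : c * m * h⁻¹ = n * (h * m * h⁻¹) := by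
        rw [← hnh]
        group
      have h3 : c * m * h⁻¹ ∈ N ↔ m ∈ N := by
        rw [h2, N.mul_mem_cancel_left hn]
        constructor
        · intro h4
          have h5 := hNn.conj_mem _ h4 h⁻¹
          have h6 : h⁻¹ * (h * m * h⁻¹) * h⁻¹⁻¹ = m := by group
          rwa [h6] at h5
        · intro h4
          exact hNn.conj_mem _ h4 h
      have h4 : f (g * (c * m * h⁻¹)) = -f (g * m) := by
        rw [← mul_assoc, (rst f).inv_mem hh, ← mul_assoc, ← hcomm g, mul_assoc, hfc]
      by_cases hm : m ∈ N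
      · rw [if_pos hm, if_pos (h3.2 hm), h4]
      · rw [if_neg hm, if_neg (fun h' => hm (h3.1 h')), neg_zero]
    omega
  · -- the index of the supremum is two
    obtain ⟨n0, hn0, hn0'⟩ : ∃ n0 ∈ N, n0 ∉ rst f := by
      by_contra h
      push Not at h
      exact hN h
    have h1 := Subgroup.relIndex_mul_index (le_sup_right : rst f ≤ N ⊔ rst f)
    have h2 : (N ⊔ rst f).index ≠ 1 := by
      rw [ne_eq, Subgroup.index_eq_one]
      intro h
      exact hcK (by rw [h]; exact Subgroup.mem_top _)
    have h3 : (rst f).relIndex (N ⊔ rst f) ≠ 1 := by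
      rw [ne_eq, Subgroup.relIndex_eq_one]
      intro h
      exact hN (le_sup_left.trans h)
    have h4 : (N ⊔ rst f).index ≠ 0 := Subgroup.index_ne_zero_of_finite
    have h5 : (rst f).relIndex (N ⊔ rst f) ≠ 0 := fun h => by
      rw [h, zero_mul] at h1
      exact Subgroup.index_ne_zero_of_finite h1.symm
    have h6 : (N ⊔ rst f).index = 2 ∧ (rst f).relIndex (N ⊔ rst f) = 2 := by
      have a1 : 2 ≤ (N ⊔ rst f).index := by omega
      have a2 : 2 ≤ (rst f).relIndex (N ⊔ rst f) := by omega
      have a3 : (rst f).relIndex (N ⊔ rst f) * (N ⊔ rst f).index ≤ 4 := by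
        rw [h1]
        exact hidx
      constructor
      · nlinarith
      · nlinarith
    have hK : ∀ a b : G, a * b ∈ N ⊔ rst f ↔ (a ∈ N ⊔ rst f ↔ b ∈ N ⊔ rst f) := fun a b =>
      Subgroup.mul_mem_iff_of_index_two h6.1
    have hH : ∀ a b : G, a ∈ N ⊔ rst f → b ∈ N ⊔ rst f →
        (a * b ∈ rst f ↔ (a ∈ rst f ↔ b ∈ rst f)) := by
      intro a b ha hb
      have h7 : ((rst f).subgroupOf (N ⊔ rst f)).index = 2 := h6.2
      have h8 := Subgroup.mul_mem_iff_of_index_two h7 (a := ⟨a, ha⟩) (b := ⟨b, hb⟩)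
      rw [Subgroup.mem_subgroupOf, Subgroup.mem_subgroupOf, Subgroup.mem_subgroupOf] at h8
      exact h8
    have hn0K : n0 ∈ N ⊔ rst f := le_sup_left (a := N) (b := rst f) hn0
    have hn0i : n0⁻¹ ∉ rst f := fun h => hn0' ((rst f).inv_mem_iff.1 h)
    have key : ∀ x, f (x * n0) = -f x := by
      by_contra hcon
      push Not at hcon
      obtain ⟨g1, hg1⟩ := hcon
      have hg1' : f (g1 * n0) = f g1 := by
        rcases hf.sign (g1 * n0) with a | a <;> rcases hf.sign g1 with b | b <;> omega
      have hk : ∀ k ∈ N ⊔ rst f, f (g1 * k * n0) = f (g1 * k) := by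
        intro k hk
        by_cases hkH : k ∈ rst f
        · have b1 : k * n0 ∉ rst f := by
            rw [hH k n0 hk hn0K]
            tauto
          have b2 : n0⁻¹ * (k * n0) ∈ rst f := by
            rw [hH _ _ ((N ⊔ rst f).inv_mem hn0K) ((N ⊔ rst f).mul_mem hk hn0K)]
            tauto
          have b3 := b2 (g1 * n0)
          have e1 : g1 * n0 * (n0⁻¹ * (k * n0)) = g1 * k * n0 := by group
          rw [e1] at b3
          rw [b3, hg1', hkH]
        · have b1 : k * n0 ∈ rst f := by
            rw [hH k n0 hk hn0K]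
            tauto
          have b2 : n0⁻¹ * k ∈ rst f := by
            rw [hH _ _ ((N ⊔ rst f).inv_mem hn0K) hk]
            tauto
          have b3 := b2 (g1 * n0)
          have e1 : g1 * n0 * (n0⁻¹ * k) = g1 * k := by group
          rw [e1] at b3
          rw [b3, hg1', mul_assoc, b1]
      apply hn0'
      intro x
      by_cases hx : g1⁻¹ * x ∈ N ⊔ rst f
      · have b1 := hk _ hx
        have e1 : g1 * (g1⁻¹ * x) = x := by group
        rw [e1] at b1
        exact b1
      · have hx' : c * (g1⁻¹ * x) ∈ N ⊔ rst f := by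
          rw [hK]
          tauto
        have b1 := hk _ hx'
        have e1 : g1 * (c * (g1⁻¹ * x)) = c * x := by
          rw [← mul_assoc, ← hcomm g1, mul_assoc, mul_inv_cancel_left]
        rw [e1, mul_assoc, hfc, hfc, neg_inj] at b1
        exact b1
    have h7 : ∑ m : G, (if m ∈ N then f (g * m) else 0) =
        -∑ m : G, (if m ∈ N then f (g * m) else 0) := by
      conv_lhs => rw [← Equiv.sum_comp (Equiv.mulRight n0)]
      rw [← Finset.sum_neg_distrib]
      refine Finset.sum_congr rfl fun m _ => ?_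
      rw [Equiv.coe_mulRight]
      by_cases hm : m ∈ N
      · rw [if_pos hm, if_pos ((N.mul_mem_cancel_right hn0).2 hm), ← mul_assoc, key]
      · rw [if_neg hm, if_neg (fun h' => hm ((N.mul_mem_cancel_right hn0).1 h')), neg_zero]
    omega

end sep

section galois

variable {p : ℕ} [Fact p.Prime] {ν : PadicAlgCl p ≃+* ℂ} {Ω : Type} [Field Ω] [CharZero Ω]
  {L : Type} [Field L] [NumberField L] [IsCMField L] [IsGalois ℚ L] {W : Set ℕ}

open Classical in
/-- The sign function of a set. -/
def sg (S : Set (L ≃ₐ[ℚ] L)) : (L ≃ₐ[ℚ] L) → ℤ := fun σ => if σ ∈ S then 1 else -1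

theorem isSign_sg {S : Set (L ≃ₐ[ℚ] L)} (hS : IsHalf S) : IsSign (cc L) (sg S) := by
  classical
  refine ⟨fun σ => ?_, fun σ => ?_⟩
  · unfold sg
    by_cases h : σ ∈ S
    · exact Or.inl (if_pos h)
    · exact Or.inr (if_neg h)
  · unfold sg
    rw [smul_eq_mul]
    by_cases h : σ ∈ S
    · rw [if_pos h, if_neg ((hS σ).1 h)]
    · have h1 : cc L * σ ∈ S := by
        by_contra h2
        exact h ((hS σ).2 h2)
      rw [if_neg h, if_pos h1, neg_neg]

theorem sg_inj {S : Set (L ≃ₐ[ℚ] L)} (σ τ : L ≃ₐ[ℚ] L) : sg S σ = sg S τ ↔ (σ ∈ S ↔ τ ∈ S) := by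
  classical
  unfold sg
  by_cases h : σ ∈ S <;> by_cases h' : τ ∈ S
  · simp [h, h']
  · rw [if_pos h, if_neg h']
    constructor
    · intro h1
      norm_num at h1
    · intro h1
      exact absurd (h1.1 h) h'
  · rw [if_neg h, if_pos h']
    constructor
    · intro h1
      norm_num at h1
    · intro h1
      exact absurd (h1.2 h') h
  · simp [h, h']

theorem rst_sg (S : Set (L ≃ₐ[ℚ] L)) : rst (sg S) = stab S := by
  ext τ
  rw [mem_rst, mem_stab]
  constructor
  · intro h
    ext σ
    rw [mem_tr]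
    exact (sg_inj _ _).1 (h σ)
  · intro h σ
    rw [sg_inj, ← mem_tr, h]

theorem cc_notMem_stab (j : L →+* ℂ) {S : Set (L ≃ₐ[ℚ] L)} (hS : IsHalf S) : cc L ∉ stab S := by
  intro h
  rw [mem_stab, tr_cc j hS] at h
  exact ne_compl S h.symm

/-- The functions of half systems. -/
def RR (p : ℕ) [Fact p.Prime] (ν : PadicAlgCl p ≃+* ℂ) (j : L →+* ℂ) : Set ((L ≃ₐ[ℚ] L) → ℤ) :=
  {f | ∃ S, IsHalf S ∧ f = tf p ν j S}

/-- The pull-back of a sign function on a quotient. -/
theorem isHalf_pull {B : Type} [Group B] (π : (L ≃ₐ[ℚ] L) →* B) {b : B → ℤ}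
    (hb : IsSign (π (cc L)) b) : IsHalf {σ | b (π σ) = 1} := by
  intro σ
  rw [Set.mem_setOf_eq, Set.mem_setOf_eq, map_mul]
  have h1 := hb.odd (π σ)
  rw [smul_eq_mul] at h1
  rw [h1]
  rcases hb.sign (π σ) with h | h <;> rw [h] <;> norm_num

theorem tf_pull {B : Type} [Group B] (j : L →+* ℂ) (π : (L ≃ₐ[ℚ] L) →* B) {b : B → ℤ}
    (hb : IsSign (π (cc L)) b) : tf p ν j {σ | b (π σ) = 1} = ph π (Dec p ν j) b := by
  classical
  funext σ
  unfold tf ph
  refine Finset.sum_congr rfl fun d _ => ?_
  by_cases hd : d ∈ Dec p ν j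
  · rw [if_pos hd, if_pos hd]
    rcases hb.sign (π (d * σ)) with h | h
    · rw [h]
      exact if_pos h
    · rw [h]
      exact if_neg (fun h' : b (π (d * σ)) = 1 => by rw [h] at h'; norm_num at h')
  · rw [if_neg hd, if_neg hd]

/-- One block: half systems that are invariant under the normal core of a stabilizer of index at most
four. -/
theorem block (W : Set ℕ) (j : L →+* ℂ) (jO : L →+* Ω) (S0 : Set (L ≃ₐ[ℚ] L)) (hS0 : IsHalf S0)
    (hidx : (stab S0).index ≤ 4) {κ : Type} [Fintype κ] (S : κ → Set (L ≃ₐ[ℚ] L))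
    (hS : ∀ k, IsHalf (S k)) (hN : ∀ k, (stab S0).normalCore ≤ stab (S k))
    (hbal : ∀ σ, ∑ k, tf p ν j (S k) σ = 0) :
    GenD (AlgMS W p ν j jO) (RR p ν j) (dcnt fun k => tf p ν j (S k)) := by
  classical
  let N : Subgroup (L ≃ₐ[ℚ] L) := (stab S0).normalCore
  let π : (L ≃ₐ[ℚ] L) →* ((L ≃ₐ[ℚ] L) ⧸ N) := QuotientGroup.mk' N
  have hπ : Function.Surjective π := QuotientGroup.mk'_surjective N
  let _ : Fintype ((L ≃ₐ[ℚ] L) ⧸ N) := Fintype.ofFinite _
  have hker : ∀ a b : L ≃ₐ[ℚ] L, π a = π b → a⁻¹ * b ∈ N := fun a b h => QuotientGroup.eq.1 h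
  have hcore : N ≤ stab S0 := Subgroup.normalCore_le _
  have hc1 : π (cc L) ≠ 1 := by
    intro h
    rw [← map_one π] at h
    have h1 := hker _ _ h
    rw [mul_one] at h1
    exact cc_notMem_stab j hS0 ((stab S0).inv_mem_iff.1 (hcore h1))
  have hc2 : π (cc L) * π (cc L) = 1 := by
    rw [← map_mul, cc_cc, map_one]
  have hcomm : ∀ g, π (cc L) * g = g * π (cc L) := by
    intro g
    obtain ⟨g, rfl⟩ := hπ g
    rw [← map_mul, ← map_mul, cc_comm j]
  -- the sign functions on the quotient
  let ε : κ → ((L ≃ₐ[ℚ] L) ⧸ N) → ℤ := fun k q => sg (S k) (Function.surjInv hπ q)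
  have hε : ∀ k σ, ε k (π σ) = sg (S k) σ := by
    intro k σ
    have h1 : π (Function.surjInv hπ (π σ)) = π σ := Function.surjInv_eq hπ _
    have h2 := hN k (hker _ _ h1)
    rw [← rst_sg] at h2
    have h3 := h2 (Function.surjInv hπ (π σ))
    rw [mul_inv_cancel_left] at h3
    exact h3.symm
  have hεs : ∀ k, IsSign (π (cc L)) (ε k) := by
    intro k
    refine ⟨fun q => (isSign_sg (hS k)).sign _, fun q => ?_⟩
    obtain ⟨σ, rfl⟩ := hπ q
    rw [smul_eq_mul, ← map_mul, hε, hε]
    exact (isSign_sg (hS k)).odd σ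
  have hph : ∀ k, ph π (Dec p ν j) (ε k) = tf p ν j (S k) := by
    intro k
    funext σ
    unfold ph tf
    refine Finset.sum_congr rfl fun d _ => ?_
    rw [hε]
    rfl
  -- stabilizers
  have hst : ∀ b : ((L ≃ₐ[ℚ] L) ⧸ N) → ℤ, IsSign (π (cc L)) b →
      (stab {σ | b (π σ) = 1}).index ≤ 4 := by
    intro b hb
    have h1 : (rst b).index ≤ 4 := by
      refine index_rst_le (π (cc L)) hcomm hc2 ((stab S0).map π) ?_ ?_ ?_ b hb
      · rintro ⟨h, hh, hh'⟩
        have h1 := hcore (hker _ _ hh')
        have h2 := (stab S0).mul_mem hh h1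
        rw [mul_inv_cancel_left] at h2
        exact cc_notMem_stab j hS0 h2
      · rw [← Subgroup.index_comap_of_surjective _ hπ]
        exact (Nat.le_of_dvd (Nat.pos_of_ne_zero Subgroup.index_ne_zero_of_finite)
          (Subgroup.index_dvd_of_le (Subgroup.le_comap_map π (stab S0)))).trans hidx
      · intro a ha
        obtain ⟨a, rfl⟩ := hπ a
        have h1 : a ∈ N := by
          intro b
          have h2 := ha (π b⁻¹)
          rw [← map_inv, inv_inv, ← map_mul, ← map_mul] at h2
          obtain ⟨h, hh, hh'⟩ := h2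
          have h3 := hcore (hker _ _ hh')
          have h4 := (stab S0).mul_mem hh h3
          rw [mul_inv_cancel_left] at h4
          exact h4
        exact (QuotientGroup.eq_one_iff a).2 h1
    have h2 : (rst b).comap π ≤ stab {σ | b (π σ) = 1} := by
      intro τ hτ
      rw [mem_stab]
      ext σ
      rw [mem_tr, Set.mem_setOf_eq, Set.mem_setOf_eq, map_mul]
      have h3 : b (π σ * π τ) = b (π σ) := hτ (π σ)
      rw [h3]
    have h3 := Subgroup.index_dvd_of_le h2
    rw [Subgroup.index_comap_of_surjective _ hπ] at h3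
    exact (Nat.le_of_dvd (Nat.pos_of_ne_zero Subgroup.index_ne_zero_of_finite) h3).trans h1
  have h1 := exch π (Dec p ν j) (π (cc L)) (AlgMS W p ν j jO) (RR p ν j) ?_ ?_ hπ hcomm hc2 hc1 ε
    hεs (fun σ => by
      rw [← hbal σ]
      exact Finset.sum_congr rfl fun k _ => by rw [hph])
  · have h2 : (fun k => ph π (Dec p ν j) (ε k)) = fun k => tf p ν j (S k) := funext hph
    rw [h2] at h1
    exact h1
  · intro b hb
    exact ⟨_, isHalf_pull π hb, (tf_pull j π hb).symm⟩
  · intro b hb hsum
    have h2 : AlgMS W p ν j jO (Fin 4) (fun k => tf p ν j {σ | b k (π σ) = 1}) :=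
      geo (p := p) (ν := ν) W j jO (fun k => {σ | b k (π σ) = 1})
      (fun k => isHalf_pull π (hb k)) (fun k => hst (b k) (hb k)) (fun σ => by
        rw [← hsum (π σ)]
        refine Finset.sum_congr rfl fun k _ => ?_
        rcases (hb k).sign (π σ) with h | h
        · rw [h]
          exact if_pos h
        · rw [h]
          exact if_neg (fun h' : b k (π σ) = 1 => by rw [h] at h'; norm_num at h'))
    have h3 : (fun k => tf p ν j {σ | b k (π σ) = 1}) = fun k => ph π (Dec p ν j) (b k) :=
      funext fun k => tf_pull j π (hb k)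
    rw [h3] at h2
    exact @h2

/-- All balanced families of half systems with stabilizers of index at most four. -/
theorem genD_small (W : Set ℕ) (j : L →+* ℂ) (jO : L →+* Ω) {κ : Type}
    (S : κ → Set (L ≃ₐ[ℚ] L)) (hS : ∀ k, IsHalf (S k)) (hidx : ∀ k, (stab (S k)).index ≤ 4)
    (s : Finset κ) (hbal : ∀ σ, ∑ k ∈ s, tf p ν j (S k) σ = 0) :
    GenD (AlgMS W p ν j jO) (RR p ν j) (∑ k ∈ s, dl (tf p ν j (S k))) := by
  classical
  induction s using Finset.strongInduction with
  | H s ih =>
    rcases s.eq_empty_or_nonempty with rfl | ⟨k0, hk0⟩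
    · rw [Finset.sum_empty]
      exact GenD.zero
    · let N : Subgroup (L ≃ₐ[ℚ] L) := (stab (S k0)).normalCore
      let P : κ → Prop := fun k => N ≤ stab (S k)
      have hP0 : P k0 := Subgroup.normalCore_le _
      have hB : ∀ σ, ∑ k ∈ s with P k, tf p ν j (S k) σ = 0 := by
        intro σ
        have h1 : ∑ n : L ≃ₐ[ℚ] L, (if n ∈ N then ∑ k ∈ s, tf p ν j (S k) (σ * n) else 0) = 0 := by
          refine Finset.sum_eq_zero fun n _ => ?_
          rw [hbal, ite_self]
        have h2 : ∀ k, ¬ P k →
            ∑ n : L ≃ₐ[ℚ] L, (if n ∈ N then tf p ν j (S k) (σ * n) else 0) = 0 := by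
          intro k hk
          have h3 : ∀ n : L ≃ₐ[ℚ] L, (if n ∈ N then tf p ν j (S k) (σ * n) else 0) =
              ∑ d : L ≃ₐ[ℚ] L, (if d ∈ Dec p ν j then
                (if n ∈ N then sg (S k) (d * σ * n) else 0) else 0) := by
            intro n
            unfold tf sg
            by_cases hn : n ∈ N
            · simp only [if_pos hn, mul_assoc]
            · simp only [if_neg hn, ite_self, Finset.sum_const_zero]
          rw [Finset.sum_congr rfl fun n _ => h3 n, Finset.sum_comm]
          refine Finset.sum_eq_zero fun d _ => ?_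
          by_cases hd : d ∈ Dec p ν j
          · simp only [if_pos hd]
            refine sep (cc L) (fun g => cc_comm j g) cc_cc (sg (S k)) (isSign_sg (hS k)) ?_ N ?_
              (d * σ)
            · rw [rst_sg]
              exact hidx k
            · rw [rst_sg]
              exact hk
          · simp only [if_neg hd, Finset.sum_const_zero]
        have h3 : ∀ k, P k → ∑ n : L ≃ₐ[ℚ] L, (if n ∈ N then tf p ν j (S k) (σ * n) else 0) =
            (∑ n : L ≃ₐ[ℚ] L, if n ∈ N then (1 : ℤ) else 0) * tf p ν j (S k) σ := by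
          intro k hk
          rw [Finset.sum_mul]
          refine Finset.sum_congr rfl fun n _ => ?_
          by_cases hn : n ∈ N
          · rw [if_pos hn, if_pos hn, one_mul]
            have h4 : tr n (S k) = S k := hk hn
            unfold tf
            refine Finset.sum_congr rfl fun d _ => ?_
            have h5 : (d * (σ * n) ∈ S k) ↔ (d * σ ∈ S k) := by
              rw [← mul_assoc, ← mem_tr, h4]
            by_cases hd : d ∈ Dec p ν j
            · rw [if_pos hd, if_pos hd]
              by_cases h6 : d * σ ∈ S k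
              · rw [if_pos h6, if_pos (h5.2 h6)]
              · rw [if_neg h6, if_neg (fun h' => h6 (h5.1 h'))]
            · rw [if_neg hd, if_neg hd]
          · rw [if_neg hn, if_neg hn, zero_mul]
        have h4 : ∑ n : L ≃ₐ[ℚ] L, (if n ∈ N then ∑ k ∈ s, tf p ν j (S k) (σ * n) else 0) =
            (∑ n : L ≃ₐ[ℚ] L, if n ∈ N then (1 : ℤ) else 0) *
              ∑ k ∈ s with P k, tf p ν j (S k) σ := by
          have h5 : ∀ n : L ≃ₐ[ℚ] L, (if n ∈ N then ∑ k ∈ s, tf p ν j (S k) (σ * n) else 0) =
              ∑ k ∈ s, (if n ∈ N then tf p ν j (S k) (σ * n) else 0) := by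
            intro n
            by_cases hn : n ∈ N
            · simp only [if_pos hn]
            · simp only [if_neg hn, Finset.sum_const_zero]
          rw [Finset.sum_congr rfl fun n _ => h5 n, Finset.sum_comm, Finset.mul_sum,
            Finset.sum_filter]
          refine Finset.sum_congr rfl fun k _ => ?_
          by_cases hk : P k
          · rw [if_pos hk, h3 k hk]
          · rw [if_neg hk, h2 k hk]
        rw [h4] at h1
        refine (mul_eq_zero.1 h1).resolve_left ?_
        have h6 : (0 : ℤ) < ∑ n : L ≃ₐ[ℚ] L, if n ∈ N then (1 : ℤ) else 0 := by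
          refine Finset.sum_pos' (fun d _ => ?_) ⟨1, Finset.mem_univ _, ?_⟩
          · split_ifs <;> norm_num
          · rw [if_pos N.one_mem]
            norm_num
        exact h6.ne'
      have hrest : ∀ σ, ∑ k ∈ s with ¬ P k, tf p ν j (S k) σ = 0 := by
        intro σ
        have h1 := Finset.sum_filter_add_sum_filter_not s P fun k => tf p ν j (S k) σ
        rw [hB σ, zero_add, hbal σ] at h1
        exact h1
      have hsub : (s.filter fun k => ¬ P k) ⊂ s := by
        refine Finset.ssubset_iff_subset_ne.2 ⟨Finset.filter_subset _ _, fun h => ?_⟩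
        have h1 : k0 ∈ s.filter fun k => ¬ P k := by
          rw [h]
          exact hk0
        exact (Finset.mem_filter.1 h1).2 hP0
      have h1 := ih _ hsub hrest
      have h2 := block (p := p) (ν := ν) W j jO (S k0) (hS k0) (hidx k0)
        (κ := {k // k ∈ s.filter P}) (fun k => S k.1) (fun k => hS k.1)
        (fun k => (Finset.mem_filter.1 k.2).2) (fun σ => by
          rw [← hB σ]
          exact Finset.sum_coe_sort (s.filter P) fun k => tf p ν j (S k) σ)
      rw [dcnt_eq_sum] at h2
      have h3 : ∑ k : {k // k ∈ s.filter P}, dl (tf p ν j (S k.1)) =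
          ∑ k ∈ s with P k, dl (tf p ν j (S k)) :=
        Finset.sum_coe_sort (s.filter P) fun k => dl (tf p ν j (S k))
      rw [h3] at h2
      rw [← Finset.sum_filter_add_sum_filter_not s P]
      exact h2.add h1

end galois

end

end Pool.Agent.Y137.SF
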