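import Pool.Agent.Y137.SF.Sep

/-!
# Separation of half systems with stabilizers of index four
-/

set_option autoImplicit false
set_option linter.unusedSectionVars false
set_option linter.unusedVariables false

namespace Pool.Agent.Y137.SF

open NumberField Pool.Agent.H204R3.CM Pool.Agent.W547.KB Pool.Agent.W547.LD Pool.Agent.W495.TA Module
  Pool.Agent.W495.TB Pool.Agent.W495.TC Pool.Agent.TH117.BL
open scoped TensorProduct

noncomputable section

section group

variable {B : Type} [Group B] (c : B) (hcomm : ∀ g, c * g = g * c) (hc2 : c * c = 1)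

include hcomm hc2

/-- If the stabilizer of a sign function has index four and contains no normal subgroup, then all
subgroups of index two contain `c`. -/
theorem mem_of_index_two [Finite B] (f : B → ℤ) (hf : IsSign c f) (hcH : c ∉ rst f)
    (hidx : (rst f).index = 4) (hcore : ∀ a, (∀ b, b⁻¹ * a * b ∈ rst f) → a = 1) (K : Subgroup B)
    (hK : K.index = 2) : c ∈ K := by
  classical
  have hfc : ∀ x, f (c * x) = -f x := fun x => hf.odd x
  have hmul : ∀ a b : B, a * b ∈ K ↔ (a ∈ K ↔ b ∈ K) := fun a b =>
    Subgroup.mul_mem_iff_of_index_two hK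
  by_cases hH : rst f = ⊥
  · by_contra hcK
    rw [hH, Subgroup.index_bot] at hidx
    have h1 := Subgroup.index_mul_card K
    rw [hK, hidx] at h1
    have h2 : Nat.card K = 2 := by omega
    obtain ⟨a, ha1, hall⟩ : ∃ a : K, a ≠ 1 ∧ ∀ b : K, b = 1 ∨ b = a := by
      have h3 := Nat.card_eq_two_iff' (1 : K) |>.1 h2
      obtain ⟨a, ha, ha'⟩ := h3
      exact ⟨a, ha, fun b => by
        by_cases hb : b = 1
        · exact Or.inl hb
        · exact Or.inr (ha' b hb)⟩
    have haa : a * a = 1 := by
      rcases hall (a * a) with h | h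
      · exact h
      · exact absurd (mul_eq_left.1 h) ha1
    have haa' : (a : B) * a = 1 := congrArg Subtype.val haa
    have hel : ∀ b : B, (b = 1 ∨ b = a) ∨ (c * b = 1 ∨ c * b = a) := by
      intro b
      by_cases hb : b ∈ K
      · left
        rcases hall ⟨b, hb⟩ with h | h
        · exact Or.inl (congrArg Subtype.val h)
        · exact Or.inr (congrArg Subtype.val h)
      · right
        have hb' : c * b ∈ K := by
          rw [hmul]
          tauto
        rcases hall ⟨c * b, hb'⟩ with h | h
        · exact Or.inl (congrArg Subtype.val h)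
        · exact Or.inr (congrArg Subtype.val h)
    -- an element of the stabilizer
    have hred : ∀ r : B, f (1 * r) = f 1 → f (a * r) = f a → r ∈ rst f := by
      intro r e1 e2 g
      have h0 : ∀ b : B, (b = 1 ∨ b = a) → f (b * r) = f b := by
        rintro b (rfl | rfl)
        · exact e1
        · exact e2
      rcases hel g with h | h
      · exact h0 g h
      · have h3 := h0 _ h
        rw [mul_assoc, hfc, hfc, neg_inj] at h3
        exact h3
    have hf1c : f c = -f 1 := by
      have := hfc 1
      rwa [mul_one] at this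
    have hne : ∀ r : B, r ∈ rst f → r = 1 := fun r hr => by
      rw [hH] at hr
      exact Subgroup.mem_bot.1 hr
    rcases hf.sign 1 with h3 | h3 <;> rcases hf.sign (a : B) with h4 | h4
    · have h5 := hne a (hred a (by rw [one_mul, h3, h4]) (by rw [haa', h3, h4]))
      exact ha1 (Subtype.ext h5)
    · have h5 := hne (c * a) (hred _ (by rw [one_mul, hfc, h3, h4, neg_neg]) (by
        rw [← mul_assoc, ← hcomm, mul_assoc, haa', mul_one, hf1c, h3, h4]))
      apply hcK
      rw [eq_inv_of_mul_eq_one_left h5]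
      exact K.inv_mem a.2
    · have h5 := hne (c * a) (hred _ (by rw [one_mul, hfc, h3, h4]) (by
        rw [← mul_assoc, ← hcomm, mul_assoc, haa', mul_one, hf1c, h3, h4, neg_neg]))
      apply hcK
      rw [eq_inv_of_mul_eq_one_left h5]
      exact K.inv_mem a.2
    · have h5 := hne a (hred a (by rw [one_mul, h3, h4]) (by rw [haa', h3, h4]))
      exact ha1 (Subtype.ext h5)
  · obtain ⟨⟨τ, hτ⟩, hτ1⟩ := (Subgroup.ne_bot_iff_exists_ne_one).1 hH
    have hτ1' : τ ≠ 1 := fun h => hτ1 (Subtype.ext h)
    obtain ⟨-, -, σ, -, hτσ, -, -⟩ := exists_sigma c hcomm hc2 (rst f) hcH hidx.le hcore τ hτ hτ1'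
    have h1 := hmul τ σ
    rw [hτσ, hmul c, hmul σ τ] at h1
    tauto

open Classical in
/-- The sums over the cosets of a normal subgroup that is not contained in the stabilizer vanish,
for stabilizers of index at most six. -/
theorem sep6 [Fintype B] (f : B → ℤ) (hf : IsSign c f) (hidx : (rst f).index ≤ 6) (N : Subgroup B)
    [hNn : N.Normal] (hN : ¬ N ≤ rst f) (hNK : ∀ K : Subgroup B, N ≤ K → K.index = 2 → c ∈ K)
    (g : B) : ∑ n : B, (if n ∈ N then f (g * n) else 0) = 0 := by
  have hfc : ∀ x, f (c * x) = -f x := fun x => hf.odd x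
  have hcK : c ∈ N ⊔ rst f := by
    by_contra hcK
    have h1 := Subgroup.relIndex_mul_index (le_sup_right : rst f ≤ N ⊔ rst f)
    have h2 : (N ⊔ rst f).index ≠ 1 := by
      rw [ne_eq, Subgroup.index_eq_one]
      intro h
      exact hcK (by rw [h]; exact Subgroup.mem_top _)
    have h3 : (rst f).relIndex (N ⊔ rst f) ≠ 1 := by
      rw [ne_eq, Subgroup.relIndex_eq_one]
      intro h
      exact hN (le_sup_left.trans h)
    have h4 : (N ⊔ rst f).index ≠ 0 := Subgroup.index_ne_zero_of_finite
    have h5 : (rst f).relIndex (N ⊔ rst f) ≠ 0 := fun h => by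
      rw [h, zero_mul] at h1
      exact Subgroup.index_ne_zero_of_finite h1.symm
    have h6 : (N ⊔ rst f).index ≠ 2 := fun h => hcK (hNK _ le_sup_left h)
    have h7 : (N ⊔ rst f).index = 3 := by
      have a2 : 2 ≤ (rst f).relIndex (N ⊔ rst f) := by omega
      have a3 : (rst f).relIndex (N ⊔ rst f) * (N ⊔ rst f).index ≤ 6 := by
        rw [h1]
        exact hidx
      have a4 : (N ⊔ rst f).index ≤ 3 := by nlinarith
      omega
    -- an involution of three points has a fixed point
    let _ : Fintype (B ⧸ (N ⊔ rst f)) := Fintype.ofFinite _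
    have h8 : Fintype.card (B ⧸ (N ⊔ rst f)) = 3 := by
      rw [← Nat.card_eq_fintype_card]
      exact h7
    have : Fact (Nat.Prime 2) := ⟨Nat.prime_two⟩
    obtain ⟨q, hq⟩ := Equiv.Perm.exists_fixed_point_of_prime (p := 2) (n := 1)
      (α := B ⧸ (N ⊔ rst f)) (by rw [h8]; norm_num)
      (σ := MulAction.toPerm c) (by
        ext q
        rw [pow_one, pow_two, Equiv.Perm.mul_apply, Equiv.Perm.one_apply, MulAction.toPerm_apply,
          MulAction.toPerm_apply, ← mul_smul, hc2, one_smul])
    obtain ⟨x, rfl⟩ := QuotientGroup.mk_surjective q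
    have h9 : ((c * x : B) : B ⧸ (N ⊔ rst f)) = x := hq
    have h10 := QuotientGroup.eq.1 h9.symm
    rw [hcomm, inv_mul_cancel_left] at h10
    exact hcK h10
  -- the sum is invariant under `c`
  obtain ⟨n, hn, h, hh, hnh⟩ := Subgroup.mem_sup_of_normal_left.1 hcK
  let e : B ≃ B := (Equiv.mulLeft c).trans (Equiv.mulRight h⁻¹)
  have he : ∀ m, e m = c * m * h⁻¹ := fun m => rfl
  have h1 : ∑ m : B, (if m ∈ N then f (g * m) else 0) =
      -∑ m : B, (if m ∈ N then f (g * m) else 0) := by
    conv_lhs => rw [← Equiv.sum_comp e]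
    rw [← Finset.sum_neg_distrib]
    refine Finset.sum_congr rfl fun m _ => ?_
    rw [he]
    have h2 : c * m * h⁻¹ = n * (h * m * h⁻¹) := by
      rw [← hnh]
      group
    have h3 : c * m * h⁻¹ ∈ N ↔ m ∈ N := by
      rw [h2, N.mul_mem_cancel_left hn]
      constructor
      · intro h4
        have h5 := hNn.conj_mem _ h4 h⁻¹
        have h6 : h⁻¹ * (h * m * h⁻¹) * h⁻¹⁻¹ = m := by group
        rwa [h6] at h5
      · intro h4
        exact hNn.conj_mem _ h4 h
    have h4 : f (g * (c * m * h⁻¹)) = -f (g * m) := by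
      rw [← mul_assoc, (rst f).inv_mem hh, ← mul_assoc, ← hcomm g, mul_assoc, hfc]
    by_cases hm : m ∈ N
    · rw [if_pos hm, if_pos (h3.2 hm), h4]
    · rw [if_neg hm, if_neg (fun h' => hm (h3.1 h')), neg_zero]
  omega

end group

section galois

variable {p : ℕ} [Fact p.Prime] {ν : PadicAlgCl p ≃+* ℂ} {Ω : Type} [Field Ω] [CharZero Ω]
  {L : Type} [Field L] [NumberField L] [IsCMField L] [IsGalois ℚ L] {W : Set ℕ}

/-- Subgroups of index two that contain the normal core of a stabilizer of index four contain complex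
conjugation. -/
theorem cc_mem_of_index_two (j : L →+* ℂ) (S0 : Set (L ≃ₐ[ℚ] L)) (hS0 : IsHalf S0)
    (hidx : (stab S0).index = 4) (K : Subgroup (L ≃ₐ[ℚ] L)) (hNK : (stab S0).normalCore ≤ K)
    (hK : K.index = 2) : cc L ∈ K := by
  classical
  have hm : ∀ τ, τ ∈ rst (sg S0) ↔ τ ∈ stab S0 := fun τ => by rw [rst_sg]
  let N : Subgroup (L ≃ₐ[ℚ] L) := (stab S0).normalCore
  let π : (L ≃ₐ[ℚ] L) →* ((L ≃ₐ[ℚ] L) ⧸ N) := QuotientGroup.mk' N
  have hπ : Function.Surjective π := QuotientGroup.mk'_surjective N
  have hker : ∀ a b : L ≃ₐ[ℚ] L, π a = π b → a⁻¹ * b ∈ N := fun a b h => QuotientGroup.eq.1 h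
  have hcore : N ≤ stab S0 := Subgroup.normalCore_le _
  have hc2 : π (cc L) * π (cc L) = 1 := by
    rw [← map_mul, cc_cc, map_one]
  have hcomm : ∀ g, π (cc L) * g = g * π (cc L) := by
    intro g
    obtain ⟨g, rfl⟩ := hπ g
    rw [← map_mul, ← map_mul, cc_comm j]
  let ε : ((L ≃ₐ[ℚ] L) ⧸ N) → ℤ := fun q => sg S0 (Function.surjInv hπ q)
  have hε : ∀ σ, ε (π σ) = sg S0 σ := by
    intro σ
    have h1 : π (Function.surjInv hπ (π σ)) = π σ := Function.surjInv_eq hπ _
    have h2 := (hm _).2 (hcore (hker _ _ h1))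
    have h3 := h2 (Function.surjInv hπ (π σ))
    rw [mul_inv_cancel_left] at h3
    exact h3.symm
  have hεs : IsSign (π (cc L)) ε := by
    refine ⟨fun q => (isSign_sg hS0).sign _, fun q => ?_⟩
    obtain ⟨σ, rfl⟩ := hπ q
    rw [smul_eq_mul, ← map_mul, hε, hε]
    exact (isSign_sg hS0).odd σ
  have hst : ∀ τ, π τ ∈ rst ε ↔ τ ∈ stab S0 := by
    intro τ
    refine Iff.trans ?_ (hm τ)
    constructor
    · intro h σ
      rw [← hε, map_mul, h, hε]
    · intro h q
      obtain ⟨σ, rfl⟩ := hπ q
      rw [← map_mul, hε, hε, h]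
  have hcomap : (rst ε).comap π = stab S0 := by
    ext τ
    exact hst τ
  have h1 : π (cc L) ∈ K.map π := by
    refine mem_of_index_two (π (cc L)) hcomm hc2 ε hεs ?_ ?_ ?_ (K.map π) ?_
    · rw [hst]
      exact cc_notMem_stab j hS0
    · rw [← Subgroup.index_comap_of_surjective _ hπ, hcomap]
      exact hidx
    · intro a ha
      obtain ⟨a, rfl⟩ := hπ a
      have h1 : a ∈ N := by
        intro b
        have h2 := ha (π b⁻¹)
        rw [← map_inv, inv_inv, ← map_mul, ← map_mul, hst] at h2
        exact h2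
      exact (QuotientGroup.eq_one_iff a).2 h1
    · rw [← Subgroup.index_comap_of_surjective _ hπ, Subgroup.comap_map_eq,
        QuotientGroup.ker_mk', sup_eq_left.2 hNK]
      exact hK
  obtain ⟨k, hk, hk'⟩ := h1
  have h2 := K.mul_mem hk (hNK (hker _ _ hk'))
  rw [mul_inv_cancel_left] at h2
  exact h2

/-- Families of half systems with stabilizers of index at most six: the members with stabilizers of
index four may be removed. -/
theorem genD_mixed (W : Set ℕ) (j : L →+* ℂ) (jO : L →+* Ω) {κ : Type}
    (S : κ → Set (L ≃ₐ[ℚ] L)) (hS : ∀ k, IsHalf (S k)) (hidx : ∀ k, (stab (S k)).index ≤ 6)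
    (hrest : ∀ s : Finset κ, (∀ k ∈ s, (stab (S k)).index ≠ 4) →
      (∀ σ, ∑ k ∈ s, tf p ν j (S k) σ = 0) →
      GenD (AlgMS W p ν j jO) (RR p ν j) (∑ k ∈ s, dl (tf p ν j (S k))))
    (s : Finset κ) (hbal : ∀ σ, ∑ k ∈ s, tf p ν j (S k) σ = 0) :
    GenD (AlgMS W p ν j jO) (RR p ν j) (∑ k ∈ s, dl (tf p ν j (S k))) := by
  classical
  induction s using Finset.strongInduction with
  | H s ih =>
    by_cases hex : ∃ k0 ∈ s, (stab (S k0)).index = 4
    · obtain ⟨k0, hk0, hidx0⟩ := hex
      let N : Subgroup (L ≃ₐ[ℚ] L) := (stab (S k0)).normalCore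
      let P : κ → Prop := fun k => N ≤ stab (S k)
      have hP0 : P k0 := Subgroup.normalCore_le _
      have hB : ∀ σ, ∑ k ∈ s with P k, tf p ν j (S k) σ = 0 := by
        intro σ
        have h1 : ∑ n : L ≃ₐ[ℚ] L, (if n ∈ N then ∑ k ∈ s, tf p ν j (S k) (σ * n) else 0) = 0 := by
          refine Finset.sum_eq_zero fun n _ => ?_
          rw [hbal, ite_self]
        have h2 : ∀ k, ¬ P k →
            ∑ n : L ≃ₐ[ℚ] L, (if n ∈ N then tf p ν j (S k) (σ * n) else 0) = 0 := by
          intro k hk
          have h3 : ∀ n : L ≃ₐ[ℚ] L, (if n ∈ N then tf p ν j (S k) (σ * n) else 0) =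
              ∑ d : L ≃ₐ[ℚ] L, (if d ∈ Dec p ν j then
                (if n ∈ N then sg (S k) (d * σ * n) else 0) else 0) := by
            intro n
            unfold tf sg
            by_cases hn : n ∈ N
            · simp only [if_pos hn, mul_assoc]
            · simp only [if_neg hn, ite_self, Finset.sum_const_zero]
          rw [Finset.sum_congr rfl fun n _ => h3 n, Finset.sum_comm]
          refine Finset.sum_eq_zero fun d _ => ?_
          by_cases hd : d ∈ Dec p ν j
          · simp only [if_pos hd]
            refine sep6 (cc L) (fun g => cc_comm j g) cc_cc (sg (S k)) (isSign_sg (hS k)) ?_ N ?_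
              (fun K hNK hK => cc_mem_of_index_two j (S k0) (hS k0) hidx0 K hNK hK) (d * σ)
            · rw [rst_sg]
              exact hidx k
            · rw [rst_sg]
              exact hk
          · simp only [if_neg hd, Finset.sum_const_zero]
        have h3 : ∀ k, P k → ∑ n : L ≃ₐ[ℚ] L, (if n ∈ N then tf p ν j (S k) (σ * n) else 0) =
            (∑ n : L ≃ₐ[ℚ] L, if n ∈ N then (1 : ℤ) else 0) * tf p ν j (S k) σ := by
          intro k hk
          rw [Finset.sum_mul]
          refine Finset.sum_congr rfl fun n _ => ?_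
          by_cases hn : n ∈ N
          · rw [if_pos hn, if_pos hn, one_mul]
            have h4 : tr n (S k) = S k := hk hn
            unfold tf
            refine Finset.sum_congr rfl fun d _ => ?_
            have h5 : (d * (σ * n) ∈ S k) ↔ (d * σ ∈ S k) := by
              rw [← mul_assoc, ← mem_tr, h4]
            by_cases hd : d ∈ Dec p ν j
            · rw [if_pos hd, if_pos hd]
              by_cases h6 : d * σ ∈ S k
              · rw [if_pos h6, if_pos (h5.2 h6)]
              · rw [if_neg h6, if_neg (fun h' => h6 (h5.1 h'))]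
            · rw [if_neg hd, if_neg hd]
          · rw [if_neg hn, if_neg hn, zero_mul]
        have h4 : ∑ n : L ≃ₐ[ℚ] L, (if n ∈ N then ∑ k ∈ s, tf p ν j (S k) (σ * n) else 0) =
            (∑ n : L ≃ₐ[ℚ] L, if n ∈ N then (1 : ℤ) else 0) *
              ∑ k ∈ s with P k, tf p ν j (S k) σ := by
          have h5 : ∀ n : L ≃ₐ[ℚ] L, (if n ∈ N then ∑ k ∈ s, tf p ν j (S k) (σ * n) else 0) =
              ∑ k ∈ s, (if n ∈ N then tf p ν j (S k) (σ * n) else 0) := by
            intro n
            by_cases hn : n ∈ N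
            · simp only [if_pos hn]
            · simp only [if_neg hn, Finset.sum_const_zero]
          rw [Finset.sum_congr rfl fun n _ => h5 n, Finset.sum_comm, Finset.mul_sum,
            Finset.sum_filter]
          refine Finset.sum_congr rfl fun k _ => ?_
          by_cases hk : P k
          · rw [if_pos hk, h3 k hk]
          · rw [if_neg hk, h2 k hk]
        rw [h4] at h1
        refine (mul_eq_zero.1 h1).resolve_left ?_
        have h6 : (0 : ℤ) < ∑ n : L ≃ₐ[ℚ] L, if n ∈ N then (1 : ℤ) else 0 := by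
          refine Finset.sum_pos' (fun d _ => ?_) ⟨1, Finset.mem_univ _, ?_⟩
          · split_ifs <;> norm_num
          · rw [if_pos N.one_mem]
            norm_num
        exact h6.ne'
      have hr : ∀ σ, ∑ k ∈ s with ¬ P k, tf p ν j (S k) σ = 0 := by
        intro σ
        have h1 := Finset.sum_filter_add_sum_filter_not s P fun k => tf p ν j (S k) σ
        rw [hB σ, zero_add, hbal σ] at h1
        exact h1
      have hsub : (s.filter fun k => ¬ P k) ⊂ s := by
        refine Finset.ssubset_iff_subset_ne.2 ⟨Finset.filter_subset _ _, fun h => ?_⟩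
        have h1 : k0 ∈ s.filter fun k => ¬ P k := by
          rw [h]
          exact hk0
        exact (Finset.mem_filter.1 h1).2 hP0
      have h1 := ih _ hsub hr
      have h2 := block (p := p) (ν := ν) W j jO (S k0) (hS k0) hidx0.le
        (κ := {k // k ∈ s.filter P}) (fun k => S k.1) (fun k => hS k.1)
        (fun k => (Finset.mem_filter.1 k.2).2) (fun σ => by
          rw [← hB σ]
          exact Finset.sum_coe_sort (s.filter P) fun k => tf p ν j (S k) σ)
      rw [dcnt_eq_sum] at h2
      have h3 : ∑ k : {k // k ∈ s.filter P}, dl (tf p ν j (S k.1)) =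
          ∑ k ∈ s with P k, dl (tf p ν j (S k)) :=
        Finset.sum_coe_sort (s.filter P) fun k => dl (tf p ν j (S k))
      rw [h3] at h2
      rw [← Finset.sum_filter_add_sum_filter_not s P]
      exact h2.add h1
    · push Not at hex
      exact hrest s hex hbal

end galois

end

end Pool.Agent.Y137.SF
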