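import Pool.Agent.TH117.BL.Gen

/-!
# Right stabilizers of sign functions
-/

set_option autoImplicit false
set_option linter.unusedSectionVars false
set_option linter.unusedVariables false

namespace Pool.Agent.Y137.SF

open Pool.Agent.W495.TA Pool.Agent.W495.TC Pool.Agent.TH117.BL

noncomputable section

variable {B : Type} [Group B]

/-- The right stabilizer of a function. -/
def rst (f : B → ℤ) : Subgroup B where
  carrier := {h | ∀ g, f (g * h) = f g}
  one_mem' := fun g => by rw [mul_one]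
  mul_mem' {a b} ha hb := fun g => by rw [← mul_assoc, hb, ha]
  inv_mem' {a} ha := fun g => by rw [← ha (g * a⁻¹), inv_mul_cancel_right]

theorem mem_rst (f : B → ℤ) (h : B) : h ∈ rst f ↔ ∀ g, f (g * h) = f g := Iff.rfl

variable (c : B) (hcomm : ∀ g, c * g = g * c) (hc2 : c * c = 1)

include hcomm hc2

/-- The elements of a group that acts faithfully and transitively on four points and commutes with an
involution of these points. -/
theorem exists_sigma [Finite B] (H : Subgroup B) (hcH : c ∉ H) (hidx : H.index ≤ 4)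
    (hcore : ∀ a, (∀ b, b⁻¹ * a * b ∈ H) → a = 1) (τ : B) (hτ : τ ∈ H) (hτ1 : τ ≠ 1) :
    (∀ h ∈ H, h ≠ 1 → h = τ) ∧ τ * τ = 1 ∧ ∃ σ, σ * σ = 1 ∧ τ * σ = c * (σ * τ) ∧ σ ∉ H ∧
      ∀ b, b ∈ H ∨ c * b ∈ H ∨ σ * b ∈ H ∨ σ * (c * b) ∈ H := by
  classical
  have hci : c⁻¹ = c := inv_eq_of_mul_eq_one_left hc2
  obtain ⟨y, hy⟩ : ∃ y, y⁻¹ * τ * y ∉ H := by
    by_contra h
    push Not at h
    exact hτ1 (hcore τ h)
  have hconj : ∀ h b : B, (c * b)⁻¹ * h * (c * b) = b⁻¹ * h * b := by
    intro h b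
    rw [mul_inv_rev, hci, mul_assoc, mul_assoc, ← mul_assoc h c b, ← hcomm h, mul_assoc c h b,
      ← mul_assoc c c, hc2, one_mul, mul_assoc]
  have n2 : y ∉ H := fun h => hy (H.mul_mem (H.mul_mem (H.inv_mem h) hτ) h)
  have n3 : c * y ∉ H := fun h => by
    apply hy
    rw [← hconj]
    exact H.mul_mem (H.mul_mem (H.inv_mem h) hτ) h
  -- the four cosets
  let v : Fin 4 → B ⧸ H := ![(1 : B), (c : B), (y : B), ((c * y : B) : B ⧸ H)]
  have key : ∀ i k : Fin 4, i < k → v i ≠ v k := by
    intro i k hik h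
    fin_cases i <;> fin_cases k <;> first
      | exact absurd hik (by decide)
      | skip
    · have h1 : (1 : B)⁻¹ * c ∈ H := QuotientGroup.eq.1 h
      rw [inv_one, one_mul] at h1
      exact hcH h1
    · have h1 : (1 : B)⁻¹ * y ∈ H := QuotientGroup.eq.1 h
      rw [inv_one, one_mul] at h1
      exact n2 h1
    · have h1 : (1 : B)⁻¹ * (c * y) ∈ H := QuotientGroup.eq.1 h
      rw [inv_one, one_mul] at h1
      exact n3 h1
    · have h1 : c⁻¹ * y ∈ H := QuotientGroup.eq.1 h
      rw [hci] at h1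
      exact n3 h1
    · have h1 : c⁻¹ * (c * y) ∈ H := QuotientGroup.eq.1 h
      rw [inv_mul_cancel_left] at h1
      exact n2 h1
    · have h1 : y⁻¹ * (c * y) ∈ H := QuotientGroup.eq.1 h
      rw [hcomm, inv_mul_cancel_left] at h1
      exact hcH h1
  have hv : Function.Injective v := by
    intro i k h
    rcases lt_trichotomy i k with h1 | h1 | h1
    · exact absurd h (key _ _ h1)
    · exact h1
    · exact absurd h.symm (key _ _ h1)
  have hvb : Function.Bijective v := by
    refine hv.bijective_of_nat_card_le ?_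
    rw [Nat.card_eq_fintype_card (α := Fin 4), Fintype.card_fin]
    exact hidx
  have dec : ∀ b, b ∈ H ∨ c * b ∈ H ∨ y⁻¹ * b ∈ H ∨ y⁻¹ * (c * b) ∈ H := by
    intro b
    obtain ⟨i, hi⟩ := hvb.2 (b : B ⧸ H)
    fin_cases i
    · have h1 : (1 : B)⁻¹ * b ∈ H := QuotientGroup.eq.1 hi
      rw [inv_one, one_mul] at h1
      exact Or.inl h1
    · have h1 : c⁻¹ * b ∈ H := QuotientGroup.eq.1 hi
      rw [hci] at h1
      exact Or.inr (Or.inl h1)
    · have h1 : y⁻¹ * b ∈ H := QuotientGroup.eq.1 hi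
      exact Or.inr (Or.inr (Or.inl h1))
    · have h1 : (c * y)⁻¹ * b ∈ H := QuotientGroup.eq.1 hi
      rw [mul_inv_rev, hci, mul_assoc] at h1
      exact Or.inr (Or.inr (Or.inr h1))
  -- an element that fixes two points
  have claim1 : ∀ h ∈ H, y⁻¹ * h * y ∈ H → h = 1 := by
    intro h hh h1
    refine hcore h fun b => ?_
    rcases dec b with h2 | h2 | h2 | h2
    · exact H.mul_mem (H.mul_mem (H.inv_mem h2) hh) h2
    · rw [← hconj]
      exact H.mul_mem (H.mul_mem (H.inv_mem h2) hh) h2
    · have h3 := H.mul_mem (H.mul_mem (H.inv_mem h2) h1) h2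
      have e1 : (y⁻¹ * b)⁻¹ * (y⁻¹ * h * y) * (y⁻¹ * b) = b⁻¹ * h * b := by group
      rw [e1] at h3
      exact h3
    · have h3 := H.mul_mem (H.mul_mem (H.inv_mem h2) h1) h2
      have e1 : (y⁻¹ * (c * b))⁻¹ * (y⁻¹ * h * y) * (y⁻¹ * (c * b)) =
          (c * b)⁻¹ * h * (c * b) := by group
      rw [e1, hconj] at h3
      exact h3
  have claim2 : ∀ h ∈ H, h ≠ 1 → y⁻¹ * (c * (h * y)) ∈ H := by
    intro h hh h1
    rcases dec (h * y) with h2 | h2 | h2 | h2
    · exact absurd ((H.mul_mem_cancel_left hh).1 h2) n2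
    · rw [← mul_assoc, hcomm, mul_assoc] at h2
      exact absurd ((H.mul_mem_cancel_left hh).1 h2) n3
    · rw [← mul_assoc] at h2
      exact absurd (claim1 h hh h2) h1
    · exact h2
  have claim3 : ∀ h ∈ H, h ≠ 1 → h = τ := by
    intro h hh h1
    have h2 := H.mul_mem (H.inv_mem (claim2 h hh h1)) (claim2 τ hτ hτ1)
    have e1 : (y⁻¹ * (c * (h * y)))⁻¹ * (y⁻¹ * (c * (τ * y))) = y⁻¹ * (h⁻¹ * τ) * y := by group
    rw [e1] at h2
    have h3 := claim1 _ (H.mul_mem (H.inv_mem hh) hτ) h2
    exact inv_mul_eq_one.1 h3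
  have hττ : τ * τ = 1 := by
    have h1 := claim3 τ⁻¹ (H.inv_mem hτ) (inv_ne_one.2 hτ1)
    have h2 := inv_mul_cancel τ
    rw [h1] at h2
    exact h2
  have hτy : τ * y = c * (y * τ) := by
    have h1 := claim2 τ hτ hτ1
    have h2 : y⁻¹ * (c * (τ * y)) ≠ 1 := by
      intro h2
      rw [inv_mul_eq_one] at h2
      have h3 : c * τ = 1 := by
        have h4 : y = (c * τ) * y := by rw [mul_assoc]; exact h2
        exact (mul_eq_right.1 h4.symm)
      apply hcH
      rw [eq_inv_of_mul_eq_one_left h3]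
      exact H.inv_mem hτ
    have h3 := claim3 _ h1 h2
    rw [inv_mul_eq_iff_eq_mul] at h3
    rw [← h3, ← mul_assoc, hc2, one_mul]
  have hc1 : c ≠ 1 := fun h => hcH (by rw [h]; exact H.one_mem)
  -- a square in `H` is one
  have hsq : ∀ σ : B, σ * σ ∈ H → τ * σ = c * (σ * τ) → σ * σ = 1 := by
    intro σ h1 h2
    by_contra h3
    have h4 := claim3 _ h1 h3
    have h5 : τ * σ = σ * τ := by
      rw [← h4, mul_assoc]
    rw [h5] at h2
    exact hc1 (mul_eq_right.1 h2.symm)
  refine ⟨claim3, hττ, ?_⟩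
  have hyy : y * y ∈ H ∨ c * (y * y) ∈ H := by
    rcases dec (y * y) with h2 | h2 | h2 | h2
    · exact Or.inl h2
    · exact Or.inr h2
    · rw [inv_mul_cancel_left] at h2
      exact absurd h2 n2
    · have e1 : y⁻¹ * (c * (y * y)) = c * y := by
        rw [← mul_assoc c, hcomm y, mul_assoc, inv_mul_cancel_left, hcomm y]
      rw [e1] at h2
      exact absurd h2 n3
  rcases hyy with h1 | h1
  · have h2 := hsq y h1 hτy
    have h3 : y⁻¹ = y := inv_eq_of_mul_eq_one_left h2
    rw [h3] at dec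
    exact ⟨y, h2, hτy, n2, dec⟩
  · have e1 : (y * τ) * (y * τ) = c * (y * y) := by
      calc (y * τ) * (y * τ) = y * ((τ * y) * τ) := by group
        _ = y * (c * (y * (τ * τ))) := by rw [hτy]; group
        _ = c * (y * y) := by rw [hττ, mul_one, ← mul_assoc, ← hcomm, mul_assoc]
    have e2 : τ * (y * τ) = c * ((y * τ) * τ) := by
      rw [← mul_assoc, hτy, mul_assoc]
    have h2 := hsq (y * τ) (by rw [e1]; exact h1) e2
    have h3 : (y * τ)⁻¹ = y * τ := inv_eq_of_mul_eq_one_left h2
    refine ⟨y * τ, h2, e2, fun h => n2 ((H.mul_mem_cancel_right hτ).1 h), fun b => ?_⟩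
    have h4 : ∀ x, y⁻¹ * x ∈ H → y * τ * x ∈ H := by
      intro x hx
      rw [← h3, mul_inv_rev, mul_assoc]
      exact H.mul_mem (H.inv_mem hτ) hx
    rcases dec b with h5 | h5 | h5 | h5
    · exact Or.inl h5
    · exact Or.inr (Or.inl h5)
    · exact Or.inr (Or.inr (Or.inl (h4 _ h5)))
    · exact Or.inr (Or.inr (Or.inr (h4 _ h5)))

/-- The right stabilizers of all sign functions have index at most four, if there is a subgroup of index
at most four that contains no normal subgroup and does not contain `c`. -/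
theorem index_rst_le [Finite B] (H : Subgroup B) (hcH : c ∉ H) (hidx : H.index ≤ 4)
    (hcore : ∀ a, (∀ b, b⁻¹ * a * b ∈ H) → a = 1) (f : B → ℤ) (hf : IsSign c f) :
    (rst f).index ≤ 4 := by
  classical
  have hfc : ∀ x, f (c * x) = -f x := fun x => hf.odd x
  by_cases hH : H = ⊥
  · rw [hH, Subgroup.index_bot] at hidx
    exact (Nat.le_of_dvd Nat.card_pos (Subgroup.index_dvd_card _)).trans hidx
  · obtain ⟨⟨τ, hτ⟩, hτ1⟩ := (Subgroup.ne_bot_iff_exists_ne_one).1 hH
    have hτ1' : τ ≠ 1 := fun h => hτ1 (Subtype.ext h)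
    obtain ⟨hH1, hττ, σ, hσσ, hτσ, hσH, dec⟩ := exists_sigma c hcomm hc2 H hcH hidx hcore τ hτ hτ1'
    have hc1 : c ≠ 1 := fun h => hcH (by rw [h]; exact H.one_mem)
    have hcardH : Nat.card H ≤ 2 := by
      have h1 : Function.Injective fun h : H => decide ((h : B) = 1) := by
        intro a b hab
        have h2 : ((a : B) = 1) ↔ ((b : B) = 1) := by
          have := congrArg (fun x => x = true) hab
          simpa using this
        by_cases ha : (a : B) = 1
        · exact Subtype.ext (ha.trans (h2.1 ha).symm)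
        · exact Subtype.ext ((hH1 a a.2 ha).trans (hH1 b b.2 (fun hb => ha (h2.2 hb))).symm)
      have h2 := Nat.card_le_card_of_injective _ h1
      rw [Nat.card_eq_fintype_card (α := Bool), Fintype.card_bool] at h2
      exact h2
    have hcardB : Nat.card B ≤ 8 := by
      rw [← Subgroup.index_mul_card H]
      calc H.index * Nat.card H ≤ 4 * 2 := Nat.mul_le_mul hidx hcardH
        _ = 8 := rfl
    -- membership in the stabilizer is checked on four elements
    have hH2 : ∀ b ∈ H, b = 1 ∨ b = τ := by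
      intro b hb
      by_cases h : b = 1
      · exact Or.inl h
      · exact Or.inr (hH1 b hb h)
    have hred : ∀ r, f (1 * r) = f 1 → f (τ * r) = f τ → f (σ * r) = f σ →
        f (σ * τ * r) = f (σ * τ) → r ∈ rst f := by
      intro r e1 e2 e3 e4 g
      have hneg : ∀ x : B, f (c * x * r) = f (c * x) → f (x * r) = f x := by
        intro x hx
        rw [mul_assoc, hfc, hfc, neg_inj] at hx
        exact hx
      have h0 : ∀ b, b ∈ H → f (b * r) = f b := by
        intro b hb
        rcases hH2 b hb with rfl | rfl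
        · exact e1
        · exact e2
      have h1 : ∀ b, σ * b ∈ H → f (b * r) = f b := by
        intro b hb
        rcases hH2 _ hb with h | h
        · have h2 : b = σ := by
            have := congrArg (fun x => σ * x) h
            rwa [← mul_assoc, hσσ, one_mul, mul_one] at this
          rw [h2]
          exact e3
        · have h2 : b = σ * τ := by
            have := congrArg (fun x => σ * x) h
            rwa [← mul_assoc, hσσ, one_mul] at this
          rw [h2]
          exact e4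
      rcases dec g with h | h | h | h
      · exact h0 g h
      · exact hneg g (h0 _ h)
      · exact h1 g h
      · exact hneg g (h1 _ h)
    have hone : ∀ x, f x * f x = 1 := by
      intro x
      rcases hf.sign x with h | h <;> rw [h] <;> norm_num
    -- the products
    have p1 : τ * (c * τ) = c := by
      rw [← mul_assoc, ← hcomm, mul_assoc, hττ, mul_one]
    have p2 : σ * (c * τ) = c * (σ * τ) := by
      rw [← mul_assoc, ← hcomm, mul_assoc]
    have p3 : σ * τ * (c * τ) = c * σ := by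
      rw [mul_assoc, p1, hcomm]
    have p4 : σ * τ * τ = σ := by rw [mul_assoc, hττ, mul_one]
    have p5 : σ * τ * σ = c * τ := by
      rw [mul_assoc, hτσ, ← mul_assoc, ← hcomm, mul_assoc, ← mul_assoc σ σ τ, hσσ, one_mul]
    have p6 : τ * (c * σ) = σ * τ := by
      rw [← mul_assoc, ← hcomm, mul_assoc, hτσ, ← mul_assoc, hc2, one_mul]
    have p7 : σ * (c * σ) = c := by
      rw [← mul_assoc, ← hcomm, mul_assoc, hσσ, mul_one]
    have p8 : σ * τ * (c * σ) = τ := by
      rw [mul_assoc, p6, ← mul_assoc, hσσ, one_mul]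
    have hf1c : f c = -f 1 := by
      have := hfc 1
      rwa [mul_one] at this
    -- one of four elements is in the stabilizer
    have hcases : (f 1 = f τ ∧ f σ = f (σ * τ)) ∨ (f τ = -f 1 ∧ f (σ * τ) = -f σ) ∨
        (f σ = f 1 ∧ f (σ * τ) = -f τ) ∨ (f σ = -f 1 ∧ f (σ * τ) = f τ) := by
      rcases hf.sign 1 with a | a <;> rcases hf.sign τ with b | b <;>
        rcases hf.sign σ with s | s <;> rcases hf.sign (σ * τ) with t | t <;> omega
    have hex : ∃ r, r ∈ rst f ∧ r ≠ 1 := by
      rcases hcases with ⟨e1, e2⟩ | ⟨e1, e2⟩ | ⟨e1, e2⟩ | ⟨e1, e2⟩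
      · exact ⟨τ, hred τ (by rw [one_mul, e1]) (by rw [hττ, e1]) e2.symm
          (by rw [p4, e2]), hτ1'⟩
      · refine ⟨c * τ, hred (c * τ) (by rw [one_mul, hfc, e1, neg_neg]) (by rw [p1, hf1c, e1])
          (by rw [p2, hfc, e2, neg_neg]) (by rw [p3, hfc, e2]), fun h => hcH ?_⟩
        rw [eq_inv_of_mul_eq_one_left h]
        exact H.inv_mem hτ
      · exact ⟨σ, hred σ (by rw [one_mul, e1]) (by rw [hτσ, hfc, e2, neg_neg])
          (by rw [hσσ, e1]) (by rw [p5, hfc, e2]), fun h => hσH (by rw [h]; exact H.one_mem)⟩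
      · refine ⟨c * σ, hred (c * σ) (by rw [one_mul, hfc, e1, neg_neg]) (by rw [p6, e2])
          (by rw [p7, hf1c, e1]) (by rw [p8, e2]), fun h => hc1 ?_⟩
        have h1 : σ = c := by
          rw [eq_inv_of_mul_eq_one_right h, inv_eq_of_mul_eq_one_left hc2]
        rw [h1, ← hcomm τ, ← mul_assoc, hc2, one_mul] at hτσ
        exact mul_eq_right.1 hτσ
    obtain ⟨r, hr, hr1⟩ := hex
    have hcard2 : 2 ≤ Nat.card (rst f) := by
      have : Nontrivial (rst f) := ⟨⟨⟨r, hr⟩, 1, fun h => hr1 (congrArg Subtype.val h)⟩⟩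
      exact Finite.one_lt_card
    have h1 := Subgroup.index_mul_card (rst f)
    by_contra h2
    push Not at h2
    have h3 : 5 * 2 ≤ (rst f).index * Nat.card (rst f) := Nat.mul_le_mul h2 hcard2
    omega

end

end Pool.Agent.Y137.SF
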