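import Pool.Agent.Y137.SF.Elem

/-!
# Families of functions of the weights of factors of dimension at most three
-/

set_option autoImplicit false
set_option linter.unusedSectionVars false
set_option linter.unusedVariables false

namespace Pool.Agent.Y137.SF

open NumberField Pool.Agent.H204R3.CM Pool.Agent.W547.KB Pool.Agent.W547.LD Pool.Agent.W495.TA Module
  Pool.Agent.W495.TB Pool.Agent.W495.TC Pool.Agent.TH117.F5 Pool.Agent.TH117.BL
open scoped TensorProduct

noncomputable section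

variable {p : ℕ} [Fact p.Prime] {ν : PadicAlgCl p ≃+* ℂ} {Ω : Type} [Field Ω] [CharZero Ω]
  {L : Type} [Field L] [NumberField L] [IsCMField L] [IsGalois ℚ L] {W : Set ℕ}

/-- The half system of a label. -/
def hsO (j : L →+* ℂ) (X : CMAV) (φ0 : (kp p).E →+* L) (o : Option (Wt X L)) :
    Set (L ≃ₐ[ℚ] L) := o.elim (hs (kp p) j φ0) fun l => hs (X.factor l.1) j l.2

theorem isHalf_hsO (j : L →+* ℂ) (X : CMAV) (φ0 : (kp p).E →+* L) (o : Option (Wt X L)) :
    IsHalf (hsO j X φ0 o) := by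
  rcases o with _ | l
  · exact isHalf_hs (kp p) j φ0
  · exact isHalf_hs (X.factor l.1) j l.2

theorem tf_hsO (j : L →+* ℂ) (X : CMAV) (φ0 : (kp p).E →+* L) (o : Option (Wt X L)) :
    tf p ν j (hsO j X φ0 o) = ext0 (tw p ν j X) o := by
  rcases o with _ | l
  · change tf p ν j (hs (kp p) j φ0) = 0
    rw [tf_hs]
    exact nn_kp (p := p) (ν := ν) (j := j) φ0
  · exact tf_hs j (X.factor l.1) l.2

theorem index_hsO_le (j : L →+* ℂ) (hkp : BigA (kp p) j) (X : CMAV) (hXj : Big X j)
    (φ0 : (kp p).E →+* L) {n : ℕ} (h2 : 2 ≤ n) (hdeg : ∀ i, finrank ℚ (X.factor i).E ≤ n)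
    (o : Option (Wt X L)) : (stab (hsO j X φ0 o)).index ≤ n := by
  rcases o with _ | l
  · refine (index_hs_le j (kp p) hkp φ0).trans ?_
    rw [finrank_kp]
    exact h2
  · exact (index_hs_le j (X.factor l.1) (hXj l.1) l.2).trans (hdeg l.1)

/-- The functions of labels are functions of half systems. -/
theorem range_ext0_subset (j : L →+* ℂ) (hkp : BigA (kp p) j) (X : CMAV) :
    Set.range (ext0 (tw p ν j X)) ⊆ RR p ν j := by
  rintro f ⟨o, rfl⟩
  obtain ⟨ψ⟩ : Nonempty ((kp p).E →+* ℂ) := inferInstance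
  obtain ⟨φ0, -⟩ := hkp ψ
  exact ⟨hsO j X φ0 o, isHalf_hsO j X φ0 o, (tf_hsO j X φ0 o).symm⟩

/-- All families of functions of the weights of factors of dimension at most two. -/
theorem genD_two (W : Set ℕ) (j : L →+* ℂ) (jO : L →+* Ω) (hkp : BigA (kp p) j) (X : CMAV)
    (hXj : Big X j) (hdeg : ∀ i, finrank ℚ (X.factor i).E ≤ 4) {κ : Type} [Fintype κ]
    (w : κ → Option (Wt X L)) (hsum : ∀ g, ∑ k, ext0 (tw p ν j X) (w k) g = 0) :
    GenD (AlgMS W p ν j jO) (RR p ν j) (dcnt fun k => ext0 (tw p ν j X) (w k)) := by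
  classical
  obtain ⟨ψ⟩ : Nonempty ((kp p).E →+* ℂ) := inferInstance
  obtain ⟨φ0, -⟩ := hkp ψ
  have h1 := genD_small (p := p) (ν := ν) W j jO (fun k => hsO j X φ0 (w k))
    (fun k => isHalf_hsO j X φ0 (w k))
    (fun k => index_hsO_le j hkp X hXj φ0 (by norm_num) hdeg (w k)) Finset.univ (fun σ => by
      rw [← hsum σ]
      exact Finset.sum_congr rfl fun k _ => by rw [tf_hsO])
  rw [dcnt_eq_sum]
  have h2 : ∑ k, dl (tf p ν j (hsO j X φ0 (w k))) = ∑ k, dl (ext0 (tw p ν j X) (w k)) :=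
    Finset.sum_congr rfl fun k _ => by rw [tf_hsO]
  rw [h2] at h1
  exact h1

/-- All families of functions of the weights of factors of dimension at most three, if no two factors
of dimension three are bad. -/
theorem genD_three (h4 : 4 ∈ W) (h6 : 6 ∈ W) (j : L →+* ℂ) (jO : L →+* Ω) (hkp : BigA (kp p) j)
    (X : CMAV) (hXj : Big X j) (hdeg : ∀ i, finrank ℚ (X.factor i).E ≤ 6)
    (hbad : ∀ i k, finrank ℚ (X.factor i).E = 6 → finrank ℚ (X.factor k).E = 6 →
      ¬ IsBad p ν j (X.factor i) (X.factor k)) {κ : Type} [Fintype κ]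
    (w : κ → Option (Wt X L)) (hsum : ∀ g, ∑ k, ext0 (tw p ν j X) (w k) g = 0) :
    GenD (AlgMS W p ν j jO) (RR p ν j) (dcnt fun k => ext0 (tw p ν j X) (w k)) := by
  classical
  obtain ⟨ψ⟩ : Nonempty ((kp p).E →+* ℂ) := inferInstance
  obtain ⟨φ0, -⟩ := hkp ψ
  have h1 := genD_mixed (p := p) (ν := ν) W j jO (fun k => hsO j X φ0 (w k))
    (fun k => isHalf_hsO j X φ0 (w k))
    (fun k => index_hsO_le j hkp X hXj φ0 (by norm_num) hdeg (w k)) ?_ Finset.univ (fun σ => by
      rw [← hsum σ]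
      exact Finset.sum_congr rfl fun k _ => by rw [tf_hsO])
  · rw [dcnt_eq_sum]
    have h2 : ∑ k, dl (tf p ν j (hsO j X φ0 (w k))) = ∑ k, dl (ext0 (tw p ν j X) (w k)) :=
      Finset.sum_congr rfl fun k _ => by rw [tf_hsO]
    rw [h2] at h1
    exact h1
  · intro s hs4 hbal
    -- the other factors
    let P : X.I → Prop := fun i => finrank ℚ (X.factor i).E = 6 ∨ ¬ Wide (nn p ν j (X.factor i))
    have hP : ∀ k ∈ s, ∀ l, w k = some l → P l.1 := by
      intro k hk l hl
      have h2 := hs4 k hk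
      rw [hl] at h2
      change (stab (hs (X.factor l.1) j l.2)).index ≠ 4 at h2
      by_cases h3 : finrank ℚ (X.factor l.1).E = 6
      · exact Or.inl h3
      · right
        have h5 := hdeg l.1
        obtain ⟨m, hm⟩ := even_finrank (X.factor l.1)
        have h7 := index_hs_le j (X.factor l.1) (hXj l.1) l.2
        exact not_wide j (X.factor l.1) l.2 (by omega)
    let X' : CMAV := { I := {i : X.I // P i}, factor := fun i => X.factor i.1 }
    have hX' : Big X' j := fun i ψ => hXj i.1 ψ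
    have hFam : Fam (AlgM p ν j jO) (tw p ν j X') := by
      refine fam_small j jO X' hX' hkp (fun i => hdeg i.1) fun i k hik => ?_
      rcases i.2 with hi | hi
      · rcases k.2 with hk | hk
        · exact hbad i.1 k.1 hi hk hik
        · exact hk hik.wideB
      · exact hi hik.wideA
    let _ : Finite (Wt X' L) := finite_wt j hX'
    let _ : Fintype (Wt X' L) := Fintype.ofFinite _
    have hex : ∀ k : {k // k ∈ s}, ∃ o : Option (Wt X' L),
        ext0 (tw p ν j X) (w k.1) = ext0 (tw p ν j X') o := by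
      intro k
      rcases hk : w k.1 with _ | l
      · exact ⟨none, rfl⟩
      · exact ⟨some ⟨⟨l.1, hP k.1 k.2 l hk⟩, l.2⟩, rfl⟩
    choose f hf using hex
    have h2 := genD_of_fam (Q := AlgM p ν j jO) (tw p ν j X') (fun l => ⟨l.1, cc L • l.2⟩)
      (fun l => nn_cc (X'.factor l.1) l.2) hFam f (fun g => by
        have h3 := hbal g
        rw [← Finset.sum_coe_sort] at h3
        rw [← h3]
        refine Finset.sum_congr rfl fun k _ => ?_
        rw [← hf k, tf_hsO])
    have h3 := GenD.mono (Q' := AlgMS W p ν j jO) (fun κ t ht => AlgMS.of_algM h4 h6 ht)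
      (range_ext0_subset j hkp X') h2
    rw [dcnt_eq_sum] at h3
    have h5 : ∑ k : {k // k ∈ s}, dl (ext0 (tw p ν j X') (f k)) =
        ∑ k ∈ s, dl (tf p ν j (hsO j X φ0 (w k))) := by
      refine Eq.trans ?_ (Finset.sum_coe_sort s fun k => dl (tf p ν j (hsO j X φ0 (w k))))
      refine Finset.sum_congr rfl fun k _ => ?_
      rw [← hf k, tf_hsO]
    rw [h5] at h3
    exact h3

end

end Pool.Agent.Y137.SF
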